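import Pool.Agent.H940.G.Defs
import Pool.Agent.H940.Z.Whi

set_option autoImplicit false
set_option linter.unusedSectionVars false
set_option linter.unusedVariables false

/-! # Germs which are weighted homogeneous in formal coordinates -/

namespace Pool.Agent.H940.G

open MvPowerSeries
open Pool.Agent.H940.Z (WHI)

variable {n : ℕ}

open Classical in
/-- the part of `x / X i` -/
noncomputable def qX (x : MvPowerSeries (Fin n) ℂ) (i : Fin n) : MvPowerSeries (Fin n) ℂ :=
  fun d => if ∀ j < i, d j = 0 then coeff (d + Finsupp.single i 1) x else 0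

open Classical in
theorem coeff_qX (x : MvPowerSeries (Fin n) ℂ) (i : Fin n) (d : Fin n →₀ ℕ) :
    coeff d (qX x i) = if ∀ j < i, d j = 0 then coeff (d + Finsupp.single i 1) x else 0 := rfl

/-- power series without constant term -/
theorem exists_X (x : MvPowerSeries (Fin n) ℂ) (hx : constantCoeff x = 0) :
    ∃ q : Fin n → MvPowerSeries (Fin n) ℂ, x = ∑ i, q i * X i := by
  classical
  refine ⟨qX x, ?_⟩
  ext d
  rw [map_sum]
  have h1 : ∀ i, coeff d (qX x i * X i) =
      if Finsupp.single i 1 ≤ d ∧ ∀ j < i, d j = 0 then coeff d x else 0 := by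
    intro i
    rw [X_def, coeff_mul_monomial, mul_one]
    by_cases h2 : Finsupp.single i 1 ≤ d
    · rw [if_pos h2, coeff_qX, tsub_add_cancel_of_le h2]
      refine if_congr ?_ rfl rfl
      constructor
      · intro h
        refine ⟨h2, fun j hj => ?_⟩
        have := h j hj
        rwa [Finsupp.tsub_apply, Finsupp.single_eq_of_ne hj.ne, Nat.sub_zero] at this
      · rintro ⟨_, h⟩ j hj
        rw [Finsupp.tsub_apply, h j hj, Nat.zero_sub]
    · rw [if_neg h2, if_neg fun h => h2 h.1]
  rw [Finset.sum_congr rfl fun i _ => h1 i]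
  by_cases hd : d = 0
  · subst hd
    rw [coeff_zero_eq_constantCoeff_apply, hx]
    symm
    refine Finset.sum_eq_zero fun i _ => ?_
    split_ifs <;> rfl
  · obtain ⟨i, hi⟩ := Finsupp.ne_iff.1 hd
    set S := Finset.univ.filter fun i => d i ≠ 0 with hS
    have hne : S.Nonempty := ⟨i, Finset.mem_filter.2 ⟨Finset.mem_univ i, hi⟩⟩
    set i₀ := S.min' hne with hi₀
    have h2 : d i₀ ≠ 0 := (Finset.mem_filter.1 (S.min'_mem hne)).2
    have h3 : ∀ j < i₀, d j = 0 := by
      intro j hj
      by_contra hc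
      exact absurd (S.min'_le j (Finset.mem_filter.2 ⟨Finset.mem_univ j, hc⟩)) (not_le.2 hj)
    rw [Finset.sum_eq_single i₀]
    · rw [if_pos]
      refine ⟨?_, h3⟩
      rw [Finsupp.single_le_iff]
      exact Nat.one_le_iff_ne_zero.2 h2
    · intro j _ hj
      rw [if_neg]
      rintro ⟨h4, h5⟩
      rw [Finsupp.single_le_iff] at h4
      rcases lt_trichotomy j i₀ with h6 | h6 | h6
      · have := h3 j h6
        omega
      · exact hj h6
      · exact h2 (h5 i₀ h6)
    · intro h
      exact absurd (Finset.mem_univ _) h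

/-- the chain rule -/
theorem pderiv_aeval (η : Fin n → MvPowerSeries (Fin n) ℂ) (g : MvPolynomial (Fin n) ℂ)
    (t : Fin n) : pderiv ℂ t (MvPolynomial.aeval η g) =
      ∑ r, MvPolynomial.aeval η (MvPolynomial.pderiv r g) * pderiv ℂ t (η r) := by
  classical
  induction g using MvPolynomial.induction_on with
  | C a =>
    rw [MvPolynomial.algHom_C, Derivation.map_algebraMap]
    symm
    refine Finset.sum_eq_zero fun r _ => ?_
    rw [MvPolynomial.pderiv_C, map_zero, zero_mul]
  | add p q hp hq =>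
    rw [map_add, map_add, hp, hq, ← Finset.sum_add_distrib]
    refine Finset.sum_congr rfl fun r _ => ?_
    rw [map_add, map_add, add_mul]
  | mul_X p i hp =>
    rw [map_mul, Derivation.leibniz, hp, MvPolynomial.aeval_X, smul_eq_mul, smul_eq_mul,
      Finset.mul_sum]
    have h2 : ∀ r, MvPolynomial.aeval η (MvPolynomial.pderiv r (p * MvPolynomial.X i)) *
        pderiv ℂ t (η r) = η i * (MvPolynomial.aeval η (MvPolynomial.pderiv r p) *
        pderiv ℂ t (η r)) + (if r = i then MvPolynomial.aeval η p * pderiv ℂ t (η i) else 0) := by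
      intro r
      rw [MvPolynomial.pderiv_mul, map_add, map_mul, map_mul, MvPolynomial.aeval_X]
      by_cases hs : r = i
      · subst hs
        rw [MvPolynomial.pderiv_X_self, map_one, if_pos rfl]
        ring
      · rw [MvPolynomial.pderiv_X_of_ne (Ne.symm hs), map_zero, if_neg hs]
        ring
    rw [Finset.sum_congr rfl fun r _ => h2 r, Finset.sum_add_distrib, Finset.sum_ite_eq',
      if_pos (Finset.mem_univ i)]
    ring

/-- an invertible matrix of power series -/
theorem exists_inv (A : Matrix (Fin n) (Fin n) (MvPowerSeries (Fin n) ℂ))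
    (h : (Matrix.of fun i j => constantCoeff (A i j)).det ≠ 0) :
    ∃ B : Matrix (Fin n) (Fin n) (MvPowerSeries (Fin n) ℂ), A * B = 1 ∧ B * A = 1 := by
  have h1 : constantCoeff A.det = (Matrix.of fun i j => constantCoeff (A i j)).det := by
    rw [RingHom.map_det]
    rfl
  have h2 : IsUnit A.det := by
    rw [MvPowerSeries.isUnit_iff_constantCoeff, h1]
    exact isUnit_iff_ne_zero.2 h
  have h3 := (Matrix.isUnit_iff_isUnit_det A).2 h2
  obtain ⟨B, hB1, hB2⟩ := isUnit_iff_exists.1 h3
  exact ⟨B, hB1, hB2⟩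

section

variable {h g : MvPolynomial (Fin n) ℂ} {w : Fin n → ℕ} {N : ℕ}
  {η : Fin n → MvPowerSeries (Fin n) ℂ} (H : WHG h g w N η)
  (h0 : MvPolynomial.constantCoeff h = 0)
  (h1 : ∀ i, MvPolynomial.constantCoeff (MvPolynomial.pderiv i h) = 0)
include H h0 h1

theorem exists_unit : ∃ U : MvPowerSeries (Fin n) ℂ, constantCoeff U ≠ 0 ∧
    (h : MvPowerSeries (Fin n) ℂ) = U * MvPolynomial.aeval η g := by
  haveI : IsDomain (MvPowerSeries (Fin n) ℂ) := NoZeroDivisors.to_isDomain _
  have h2 := Ideal.span_singleton_eq_span_singleton.1 H.gen.symm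
  obtain ⟨U, hU⟩ := h2
  refine ⟨U, ?_, ?_⟩
  · have := (MvPowerSeries.isUnit_iff_constantCoeff.1 U.isUnit)
    exact this.ne_zero
  · rw [← hU, mul_comm]

theorem cc_aeval (P : MvPolynomial (Fin n) ℂ) :
    constantCoeff (MvPolynomial.aeval η P) = MvPolynomial.constantCoeff P := by
  induction P using MvPolynomial.induction_on with
  | C a =>
    rw [MvPolynomial.algHom_C, MvPolynomial.constantCoeff_C, MvPowerSeries.algebraMap_apply,
      constantCoeff_C]
    rfl
  | add p q hp hq => rw [map_add, map_add, hp, hq, map_add]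
  | mul_X p i hp =>
    rw [map_mul, map_mul, MvPolynomial.aeval_X, H.cc, mul_zero, map_mul,
      MvPolynomial.constantCoeff_X, mul_zero]

/-- the Jacobian matrix is invertible at the origin -/
theorem det_pd : (Matrix.of fun t r => constantCoeff (pderiv ℂ t (η r))).det ≠ 0 := by
  have h2 : (Matrix.of fun t r => constantCoeff (pderiv ℂ t (η r))) =
      Matrix.of fun u t => coeff (Finsupp.single u 1) (η t) := by
    ext1 u t
    rw [Matrix.of_apply, Matrix.of_apply, ← coeff_zero_eq_constantCoeff_apply, coeff_pderiv]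
    simp
  rw [h2]
  exact H.det

/-- `g` has a critical point at the origin -/
theorem g_crit (i : Fin n) : MvPolynomial.constantCoeff (MvPolynomial.pderiv i g) = 0 := by
  obtain ⟨U, hU, hh⟩ := exists_unit H h0 h1
  have hg0 : constantCoeff (MvPolynomial.aeval η g) = 0 := by
    have h2 : constantCoeff (h : MvPowerSeries (Fin n) ℂ) = 0 := by
      rw [← coeff_zero_eq_constantCoeff_apply, MvPolynomial.coeff_coe]
      exact h0
    rw [hh, map_mul] at h2
    exact (mul_eq_zero.1 h2).resolve_left hU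
  have h2 : ∀ t, ∑ r, constantCoeff (pderiv ℂ t (η r)) *
      MvPolynomial.constantCoeff (MvPolynomial.pderiv r g) = 0 := by
    intro t
    have h3 : constantCoeff (pderiv ℂ t (h : MvPowerSeries (Fin n) ℂ)) = 0 := by
      rw [pderiv_coe, ← coeff_zero_eq_constantCoeff_apply, MvPolynomial.coeff_coe]
      exact h1 t
    rw [hh, Derivation.leibniz, smul_eq_mul, smul_eq_mul, map_add, map_mul, map_mul, hg0, zero_mul,
      add_zero, pderiv_aeval, map_sum] at h3
    have h4 := (mul_eq_zero.1 h3).resolve_left hU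
    rw [← h4]
    refine Finset.sum_congr rfl fun r _ => ?_
    rw [map_mul, cc_aeval H h0 h1, mul_comm]
  have h3 := Matrix.eq_zero_of_mulVec_eq_zero (det_pd H h0 h1)
    (v := fun r => MvPolynomial.constantCoeff (MvPolynomial.pderiv r g)) (by
      funext t
      exact h2 t)
  exact congrFun h3 i

theorem whi : WHI g w N where
  wpos := H.wpos
  hom := H.hom
  crit := fun v => ⟨H.crit v, fun h2 i => by
    rw [h2, MvPolynomial.eval_zero]
    exact g_crit H h0 h1 i⟩

/-- the partial derivatives of `g` at `η` in terms of those of `h` -/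
theorem exists_B (hn : 0 < n) : ∃ B : Matrix (Fin n) (Fin n) (MvPowerSeries (Fin n) ℂ), ∀ r,
    MvPolynomial.aeval η (MvPolynomial.pderiv r g) =
      ∑ t, B r t * pderiv ℂ t (h : MvPowerSeries (Fin n) ℂ) := by
  obtain ⟨U, hU, hh⟩ := exists_unit H h0 h1
  have hW := whi H h0 h1
  have hN : (N : ℂ) ≠ 0 := by
    have := lt_of_le_of_lt (Nat.zero_le _) (hW.lt ⟨0, hn⟩)
    exact_mod_cast this.ne'
  have heul : (C (N : ℂ) : MvPowerSeries (Fin n) ℂ) * MvPolynomial.aeval η g =
      ∑ r, C (w r : ℂ) * η r * MvPolynomial.aeval η (MvPolynomial.pderiv r g) := by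
    have h2 := congrArg (MvPolynomial.aeval η) (Pool.Agent.H940.Z.euler_w w g N H.hom)
    rw [map_mul, MvPolynomial.algHom_C, map_sum] at h2
    have h3 : (algebraMap ℂ (MvPowerSeries (Fin n) ℂ)) (N : ℂ) = C (N : ℂ) := rfl
    rw [h3] at h2
    rw [← h2]
    refine Finset.sum_congr rfl fun r _ => ?_
    rw [map_mul, map_mul, MvPolynomial.algHom_C, MvPolynomial.aeval_X]
    rfl
  set A : Matrix (Fin n) (Fin n) (MvPowerSeries (Fin n) ℂ) := fun t r =>
    U * pderiv ℂ t (η r) + C ((N : ℂ)⁻¹) * pderiv ℂ t U * (C (w r : ℂ) * η r) with hA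
  have h2 : ∀ t, pderiv ℂ t (h : MvPowerSeries (Fin n) ℂ) =
      ∑ r, A t r * MvPolynomial.aeval η (MvPolynomial.pderiv r g) := by
    intro t
    have h3 : MvPolynomial.aeval η g = C ((N : ℂ)⁻¹) *
        ∑ r, C (w r : ℂ) * η r * MvPolynomial.aeval η (MvPolynomial.pderiv r g) := by
      rw [← heul, ← mul_assoc, ← map_mul, inv_mul_cancel₀ hN, map_one, one_mul]
    rw [hh, Derivation.leibniz, smul_eq_mul, smul_eq_mul, pderiv_aeval, h3, Finset.mul_sum,
      Finset.mul_sum, Finset.sum_mul, ← Finset.sum_add_distrib]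
    refine Finset.sum_congr rfl fun r _ => ?_
    simp only [hA]
    ring
  obtain ⟨B, hB1, hB2⟩ := exists_inv A (by
    have h3 : (Matrix.of fun i j => constantCoeff (A i j)) =
        (constantCoeff U) • Matrix.of fun t r => constantCoeff (pderiv ℂ t (η r)) := by
      ext1 i j
      rw [Matrix.of_apply, Matrix.smul_apply, Matrix.of_apply]
      simp only [hA]
      rw [map_add, map_mul, map_mul, map_mul, map_mul, H.cc, mul_zero, mul_zero, add_zero,
        smul_eq_mul]
    rw [h3, Matrix.det_smul]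
    exact mul_ne_zero (pow_ne_zero _ hU) (det_pd H h0 h1))
  refine ⟨B, fun r => ?_⟩
  have h3 : ∀ t, B r t * pderiv ℂ t (h : MvPowerSeries (Fin n) ℂ) =
      ∑ s, B r t * A t s * MvPolynomial.aeval η (MvPolynomial.pderiv s g) := by
    intro t
    rw [h2 t, Finset.mul_sum]
    exact Finset.sum_congr rfl fun s _ => by ring
  rw [Finset.sum_congr rfl fun t _ => h3 t, Finset.sum_comm]
  have h4 : ∀ s, ∑ t, B r t * A t s * MvPolynomial.aeval η (MvPolynomial.pderiv s g) =
      if r = s then MvPolynomial.aeval η (MvPolynomial.pderiv s g) else 0 := by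
    intro s
    rw [← Finset.sum_mul]
    have h5 : ∑ t, B r t * A t s = (B * A) r s := rfl
    rw [h5, hB2, Matrix.one_apply]
    split_ifs
    · rw [one_mul]
    · rw [zero_mul]
  rw [Finset.sum_congr rfl fun s _ => h4 s, Finset.sum_ite_eq, if_pos (Finset.mem_univ r)]

/-- **The local Euler relation.** -/
theorem exists_euler (hn : 0 < n) : ∃ (u : MvPolynomial (Fin n) ℂ)
    (a : Fin n → MvPolynomial (Fin n) ℂ), MvPolynomial.constantCoeff u ≠ 0 ∧
    (∀ t, MvPolynomial.constantCoeff (a t) = 0) ∧ u * h = ∑ t, a t * MvPolynomial.pderiv t h := by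
  obtain ⟨U, hU, hh⟩ := exists_unit H h0 h1
  have hW := whi H h0 h1
  have hN : (N : ℂ) ≠ 0 := by
    have := lt_of_le_of_lt (Nat.zero_le _) (hW.lt ⟨0, hn⟩)
    exact_mod_cast this.ne'
  obtain ⟨B, hB⟩ := exists_B H h0 h1 hn
  have heul : (C (N : ℂ) : MvPowerSeries (Fin n) ℂ) * MvPolynomial.aeval η g =
      ∑ r, C (w r : ℂ) * η r * MvPolynomial.aeval η (MvPolynomial.pderiv r g) := by
    have h2 := congrArg (MvPolynomial.aeval η) (Pool.Agent.H940.Z.euler_w w g N H.hom)
    rw [map_mul, MvPolynomial.algHom_C, map_sum] at h2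
    have h3 : (algebraMap ℂ (MvPowerSeries (Fin n) ℂ)) (N : ℂ) = C (N : ℂ) := rfl
    rw [h3] at h2
    rw [← h2]
    refine Finset.sum_congr rfl fun r _ => ?_
    rw [map_mul, map_mul, MvPolynomial.algHom_C, MvPolynomial.aeval_X]
    rfl
  choose q hq using fun r => exists_X (η r) (H.cc r)
  have h2 : (h : MvPowerSeries (Fin n) ℂ) = ∑ x : Fin n × Fin n,
      (∑ r, U * C ((N : ℂ)⁻¹) * C (w r : ℂ) * B r x.1 * q r x.2) *
        ((MvPolynomial.X x.2 * MvPolynomial.pderiv x.1 h : MvPolynomial (Fin n) ℂ) :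
          MvPowerSeries (Fin n) ℂ) := by
    have h3 : MvPolynomial.aeval η g = C ((N : ℂ)⁻¹) *
        ∑ r, C (w r : ℂ) * η r * MvPolynomial.aeval η (MvPolynomial.pderiv r g) := by
      rw [← heul, ← mul_assoc, ← map_mul, inv_mul_cancel₀ hN, map_one, one_mul]
    conv_lhs => rw [hh, h3]
    rw [Fintype.sum_prod_type, Finset.mul_sum, Finset.mul_sum]
    have h4 : ∀ t : Fin n, ∑ j : Fin n, (∑ r, U * C ((N : ℂ)⁻¹) * C (w r : ℂ) * B r t * q r j) *
        ((MvPolynomial.X j * MvPolynomial.pderiv t h : MvPolynomial (Fin n) ℂ) :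
          MvPowerSeries (Fin n) ℂ) = ∑ r, U * C ((N : ℂ)⁻¹) * C (w r : ℂ) * B r t * η r *
          pderiv ℂ t (h : MvPowerSeries (Fin n) ℂ) := by
      intro t
      simp only [Finset.sum_mul]
      rw [Finset.sum_comm]
      refine Finset.sum_congr rfl fun r _ => ?_
      conv_rhs => rw [hq r, Finset.mul_sum, Finset.sum_mul]
      refine Finset.sum_congr rfl fun j _ => ?_
      rw [MvPolynomial.coe_mul, MvPolynomial.coe_X, pderiv_coe]
      ring
    rw [Finset.sum_congr rfl fun t _ => h4 t, Finset.sum_comm]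
    refine Finset.sum_congr rfl fun r _ => ?_
    rw [hB r, Finset.mul_sum, Finset.mul_sum, Finset.mul_sum]
    refine Finset.sum_congr rfl fun t _ => ?_
    ring
  obtain ⟨u, c, hu, hc⟩ := Pool.Agent.Y229.flatInf (S := Unit) (L := Fin n × Fin n) (fun _ => h)
    (fun x _ => MvPolynomial.X x.2 * MvPolynomial.pderiv x.1 h) _ fun _ => h2
  refine ⟨u, fun t => ∑ j, c (t, j) * MvPolynomial.X j, hu, fun t => ?_, ?_⟩
  · rw [map_sum]
    exact Finset.sum_eq_zero fun j _ => by
      rw [map_mul, MvPolynomial.constantCoeff_X, mul_zero]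
  · have h3 := hc ()
    rw [h3, Fintype.sum_prod_type]
    refine Finset.sum_congr rfl fun t _ => ?_
    rw [Finset.sum_mul]
    exact Finset.sum_congr rfl fun j _ => by ring

/-- **Powers of the coordinates in the Jacobian ideal.** -/
theorem exists_pow (hn : 0 < n) : ∃ (L : ℕ) (u : MvPolynomial (Fin n) ℂ),
    MvPolynomial.constantCoeff u ≠ 0 ∧ ∀ i, u * MvPolynomial.X i ^ L ∈
      Ideal.span (Set.range fun t => MvPolynomial.pderiv t h) := by
  classical
  have hW := whi H h0 h1
  obtain ⟨B, hB⟩ := exists_B H h0 h1 hn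
  obtain ⟨M, hM⟩ := hW.pow_mem
  set J : Ideal (MvPowerSeries (Fin n) ℂ) :=
    Ideal.span (Set.range fun t => pderiv ℂ t (h : MvPowerSeries (Fin n) ℂ)) with hJ
  have hgJ : ∀ r, MvPolynomial.aeval η (MvPolynomial.pderiv r g) ∈ J := by
    intro r
    rw [hB r]
    exact Ideal.sum_mem _ fun t _ => Ideal.mul_mem_left _ _ (Ideal.subset_span ⟨t, rfl⟩)
  have hηJ : ∀ r, η r ∈ J.radical := by
    intro r
    refine ⟨M, ?_⟩
    obtain ⟨c, hc⟩ := (Ideal.mem_span_range_iff_exists_fun (R := MvPolynomial (Fin n) ℂ)).1 (hM r)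
    have h2 := congrArg (MvPolynomial.aeval η) hc
    rw [map_pow, MvPolynomial.aeval_X, map_sum] at h2
    rw [← h2]
    refine Ideal.sum_mem _ fun s _ => ?_
    rw [map_mul]
    exact Ideal.mul_mem_left _ _ (hgJ s)
  -- the coordinates in terms of the `η r`
  choose q hq using fun r => exists_X (η r) (H.cc r)
  obtain ⟨E, hE1, hE2⟩ := exists_inv (Matrix.of q) (by
    have h2 : (Matrix.of fun i j => constantCoeff ((Matrix.of q) i j)) =
        (Matrix.of fun u t => coeff (Finsupp.single u 1) (η t)).transpose := by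
      ext1 r j
      rw [Matrix.of_apply, Matrix.transpose_apply, Matrix.of_apply, Matrix.of_apply]
      conv_rhs => rw [hq r, map_sum]
      rw [Finset.sum_eq_single j]
      · rw [X_def, coeff_mul_monomial, if_pos le_rfl, tsub_self, mul_one,
          coeff_zero_eq_constantCoeff_apply]
      · intro i _ hi
        rw [X_def, coeff_mul_monomial, if_neg]
        intro h3
        rw [Finsupp.single_le_iff, Finsupp.single_eq_of_ne hi] at h3
        omega
      · intro h3
        exact absurd (Finset.mem_univ _) h3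
    rw [h2, Matrix.det_transpose]
    exact H.det)
  have hXJ : ∀ i, (X i : MvPowerSeries (Fin n) ℂ) ∈ J.radical := by
    intro i
    have h2 : (X i : MvPowerSeries (Fin n) ℂ) = ∑ r, E i r * η r := by
      have h3 : ∀ r, E i r * η r = ∑ j, E i r * (Matrix.of q) r j * X j := by
        intro r
        conv_lhs => rw [hq r, Finset.mul_sum]
        refine Finset.sum_congr rfl fun j _ => ?_
        rw [Matrix.of_apply]
        ring
      rw [Finset.sum_congr rfl fun r _ => h3 r, Finset.sum_comm]
      have h4 : ∀ j, ∑ r, E i r * (Matrix.of q) r j * X j =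
          if i = j then (X j : MvPowerSeries (Fin n) ℂ) else 0 := by
        intro j
        rw [← Finset.sum_mul]
        have h5 : ∑ r, E i r * (Matrix.of q) r j = (E * Matrix.of q) i j := rfl
        rw [h5, hE2, Matrix.one_apply]
        split_ifs
        · rw [one_mul]
        · rw [zero_mul]
      rw [Finset.sum_congr rfl fun j _ => h4 j, Finset.sum_ite_eq, if_pos (Finset.mem_univ i)]
    rw [h2]
    exact Ideal.sum_mem _ fun r _ => Ideal.mul_mem_left _ _ (hηJ r)
  choose L hL using hXJ
  have h2 : ∀ i, ∃ u : MvPolynomial (Fin n) ℂ, MvPolynomial.constantCoeff u ≠ 0 ∧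
      u * MvPolynomial.X i ^ L i ∈ Ideal.span (Set.range fun t => MvPolynomial.pderiv t h) := by
    intro i
    obtain ⟨c, hc⟩ := (Ideal.mem_span_range_iff_exists_fun (R := MvPowerSeries (Fin n) ℂ)).1 (hL i)
    obtain ⟨u, c', hu, hc'⟩ := Pool.Agent.Y229.flatInf (S := Unit) (L := Fin n)
      (fun _ => MvPolynomial.X i ^ L i) (fun t _ => MvPolynomial.pderiv t h) c fun _ => by
        rw [MvPolynomial.coe_pow, MvPolynomial.coe_X, ← hc]
        exact Finset.sum_congr rfl fun t _ => by rw [pderiv_coe]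
    refine ⟨u, hu, ?_⟩
    rw [hc' ()]
    exact Ideal.sum_mem _ fun t _ => Ideal.mul_mem_left _ _ (Ideal.subset_span ⟨t, rfl⟩)
  choose u hu1 hu2 using h2
  refine ⟨∑ i, L i, ∏ i, u i, ?_, fun i => ?_⟩
  · rw [map_prod]
    exact Finset.prod_ne_zero_iff.2 fun i _ => hu1 i
  · refine Ideal.mem_of_dvd _ (mul_dvd_mul (Finset.dvd_prod_of_mem u (Finset.mem_univ i))
      (pow_dvd_pow _ (Finset.single_le_sum (fun i _ => Nat.zero_le (L i))
        (Finset.mem_univ i)))) (hu2 i)

end

end Pool.Agent.H940.G
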