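import Pool.Agent.H940.G.LinAlg
import Pool.Agent.H940.LT.Root
import Pool.Agent.H940.Z.Rec
import Pool.Agent.H940.Z.Whi

set_option autoImplicit false
set_option linter.unusedSectionVars false
set_option linter.unusedVariables false

/-! # The second torus -/

namespace Pool.Agent.H940.G

open MvPolynomial Pool.Agent.W428.MOT Pool.Agent.TH192.MT Pool.Agent.TH192.DT Pool.Agent.Q49.CO
open Pool.Agent.Q57.QM
open Pool.Agent.H940.LT (dv)
open Pool.Agent.H940.Z Pool.Agent.H940.G.LA

variable {n : ℕ}

/-- the component of degree `k + d` of a product with a form of degree `d` -/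
theorem hc_mul {m : ℕ} (p q : MvPolynomial (Fin m) ℂ) (k d : ℕ) (hq : q.IsHomogeneous d) :
    homogeneousComponent (k + d) (p * q) = homogeneousComponent k p * q := by
  conv_lhs => rw [← sum_homogeneousComponent (φ := p), Finset.sum_mul, map_sum]
  have h1 : ∀ i, homogeneousComponent (k + d) (homogeneousComponent i p * q) =
      if k = i then homogeneousComponent i p * q else 0 := by
    intro i
    rw [homogeneousComponent_of_mem ((homogeneousComponent_isHomogeneous i p).mul hq)]
    by_cases h : k = i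
    · rw [if_pos h, if_pos (by rw [h])]
    · rw [if_neg h, if_neg (by omega)]
  rw [Finset.sum_congr rfl fun i _ => h1 i, Finset.sum_ite_eq]
  split_ifs with h
  · rfl
  · rw [homogeneousComponent_eq_zero, zero_mul]
    rw [Finset.mem_range] at h
    omega

theorem hc_one {m : ℕ} (p : MvPolynomial (Fin m) ℂ) :
    homogeneousComponent 1 p = lf fun j => coeff (Finsupp.single j 1) p := by
  classical
  ext α
  rw [coeff_homogeneousComponent, lf_apply, coeff_sum]
  have h0 : ∀ j, coeff α (C (coeff (Finsupp.single j 1) p) * X j) =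
      if Finsupp.single j 1 = α then coeff (Finsupp.single j 1) p else 0 := by
    intro j
    rw [coeff_C_mul, coeff_X]
    split_ifs <;> ring
  rw [Finset.sum_congr rfl fun j _ => h0 j]
  by_cases h : α.degree = 1
  · rw [if_pos h]
    obtain ⟨j, rfl⟩ : ∃ j, α = Finsupp.single j 1 := by
      have h1 : α ≠ 0 := by
        rintro rfl
        rw [map_zero] at h
        omega
      obtain ⟨j, hj⟩ := Finsupp.ne_iff.1 h1
      have h2 : Finsupp.single j 1 ≤ α := by
        rw [Finsupp.single_le_iff]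
        exact Nat.one_le_iff_ne_zero.2 hj
      obtain ⟨β, hβ⟩ := exists_add_of_le h2
      refine ⟨j, ?_⟩
      rw [hβ, map_add, Finsupp.degree_single] at h
      have h3 : β.degree = 0 := by omega
      rw [Finsupp.degree_eq_zero_iff] at h3
      rw [hβ, h3, add_zero]
    rw [Finset.sum_eq_single j]
    · rw [if_pos rfl]
    · intro i _ hi
      rw [if_neg]
      intro h1
      exact hi (Finsupp.single_left_injective one_ne_zero h1)
    · intro h1
      exact absurd (Finset.mem_univ _) h1
  · rw [if_neg h]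
    symm
    refine Finset.sum_eq_zero fun j _ => ?_
    rw [if_neg]
    rintro rfl
    exact h (Finsupp.degree_single _ _)

theorem aeval_la {m : ℕ} (B : Matrix (Fin m) (Fin m) ℂ) (δ : Arc ℂ (Fin m))
    (f : MvPolynomial (Fin m) ℂ) : aeval (la B δ) f = aeval δ (sb B f) := by
  have h1 : (aeval (la B δ) : MvPolynomial (Fin m) ℂ →ₐ[ℂ] _) = (aeval δ).comp (sb B) := by
    apply algHom_ext
    intro i
    rw [AlgHom.comp_apply, sb_X, aeval_X, lf_apply, map_sum]
    unfold la
    refine Finset.sum_congr rfl fun j _ => ?_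
    rw [map_mul, algHom_C, aeval_X, PowerSeries.algebraMap_apply]
  rw [h1]
  rfl

theorem der_sum {m : ℕ} (F : Fin m → Derivation ℂ (MvPolynomial (Fin m) ℂ) (MvPolynomial (Fin m) ℂ))
    (p : MvPolynomial (Fin m) ℂ) : (∑ i, F i) p = ∑ i, F i p := by
  have h1 : ((∑ i, F i : Derivation ℂ (MvPolynomial (Fin m) ℂ) (MvPolynomial (Fin m) ℂ)) :
      MvPolynomial (Fin m) ℂ → MvPolynomial (Fin m) ℂ) = ∑ i, (F i : MvPolynomial (Fin m) ℂ →
      MvPolynomial (Fin m) ℂ) := map_sum Derivation.coeFnAddMonoidHom F Finset.univ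
  rw [h1, Finset.sum_apply]

/-- **The second torus.** -/
theorem exists_second (f : MvPolynomial (Fin (n + 1)) ℂ) (d : ℕ) (hd : 1 ≤ d)
    (hf : f.IsHomogeneous d) (η : Fin (n + 1) → MvPolynomial (Fin (n + 1)) ℂ)
    (hη : ∑ i, η i * pderiv i f = 0) (hdv : constantCoeff (dv η) ≠ 0) :
    ∃ (A B : Matrix (Fin (n + 1)) (Fin (n + 1)) ℂ) (w : Fin (n + 1) → ℤ) (c₀ : ℕ),
      A * B = 1 ∧ B * A = 1 ∧ ∑ i, w i ≠ 0 ∧ 0 < c₀ ∧ (∀ i, 0 < w i + c₀) ∧ ∀ c ≥ c₀,
      ∀ γ : Arc ℂ (Fin (n + 1)), aeval (tt A B (fun i => (w i + c).toNat) γ) f =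
        PowerSeries.X ^ (c * d) * aeval γ f := by
  classical
  set A : Matrix (Fin (n + 1)) (Fin (n + 1)) ℂ := fun i j => coeff (Finsupp.single j 1) (η i)
    with hA
  set T : Module.End ℂ (Fin (n + 1) → ℂ) := Matrix.toLin' A.transpose with hT
  have hTs : ∀ i, T (Pi.single i 1) = A i := by
    intro i
    funext j
    rw [hT, Matrix.toLin'_apply, Matrix.mulVec_single_one]
    rfl
  have h1 : LA.Dl T f = 0 := by
    have h2 := congrArg (homogeneousComponent (1 + (d - 1))) hη
    rw [map_sum, map_zero] at h2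
    have h3 : ∀ i, homogeneousComponent (1 + (d - 1)) (η i * pderiv i f) =
        lf (A i) * pderiv i f := by
      intro i
      rw [hc_mul _ _ _ _ hf.pderiv, hc_one]
    rw [Finset.sum_congr rfl fun i _ => h3 i] at h2
    rw [← h2]
    have h4 : LA.Dl T = ∑ i, lf (A i) • pderiv i := by
      refine derivation_ext fun j => ?_
      rw [Dl_X, hTs, der_sum, Finset.sum_eq_single j]
      · rw [Derivation.smul_apply, pderiv_X_self, smul_eq_mul, mul_one]
      · intro i _ hi
        rw [Derivation.smul_apply, pderiv_X_of_ne (Ne.symm hi), smul_zero]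
      · intro h5
        exact absurd (Finset.mem_univ _) h5
    rw [h4, der_sum]
    exact Finset.sum_congr rfl fun i _ => by rw [Derivation.smul_apply, smul_eq_mul]
  obtain ⟨Y, Z, lam, hYZ, hZY, htr, hlam⟩ := exists_coords T f h1
  have h2 : ∑ i, lam i ≠ 0 := by
    rw [htr, hT, Matrix.trace_toLin'_eq]
    intro h3
    apply hdv
    rw [← h3, dv, map_sum, Matrix.trace]
    refine Finset.sum_congr rfl fun i _ => ?_
    rw [Matrix.diag_apply, Matrix.transpose_apply, constantCoeff_eq, coeff_pderiv]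
    simp only [zero_add, Finsupp.coe_zero, Pi.zero_apply, Nat.cast_zero, mul_one]
    rfl
  have hg : (sb Z f).IsHomogeneous d := by
    have h3 := hf.aeval (fun i => lf (Z i)) (n := 1) fun i => by
      rw [lf_apply]
      exact IsHomogeneous.sum _ _ _ fun j _ => by
        have := (isHomogeneous_C (Fin (n + 1)) (Z i j)).mul (isHomogeneous_X ℂ j)
        rwa [zero_add] at this
    rwa [one_mul] at h3
  obtain ⟨w, c₀, hw, hc₀, hpos, hwh⟩ := exists_weights lam h2 (sb Z f) d hd hg hlam
  refine ⟨Y, Z, w, c₀, hYZ, hZY, hw, hc₀, hpos, fun c hc γ => ?_⟩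
  unfold tt
  rw [aeval_la, aeval_ts (hwh c hc), aeval_la, sb_sb, hZY, sb_one]

end Pool.Agent.H940.G
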