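import Pool.Agent.H940.G.Zeta
import Pool.Agent.H940.G.Second
import Pool.Graph.R_pool_sql_team_seeded_3997aac3.Q57.MD.Rows

set_option autoImplicit false
set_option linter.unusedSectionVars false
set_option linter.unusedVariables false

/-! # Forms with locally weighted homogeneous isolated singularities -/

namespace Pool.Agent.H940.G

open MvPolynomial Pool.Agent.W428.MOT Pool.Agent.TH192.MT Pool.Agent.TH192.DT Pool.Agent.Q49.CO
open Pool.Agent.Q57.QM Pool.Agent.Y229 Pool.Agent.Q57.MC Pool.Agent.Q57.MD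
open Pool.Agent.W574.LM (IsLocEq)
open Pool.Agent.TH192.MU (zetaId IsTopZeta)
open Pool.Agent.H628R4.TP (IsBFunction IsLocalBFunction)
open Pool.Agent.H940.LT (eval_homog euler_hom LTy hom_lty root_or_field dv)
open Pool.Agent.H940.Z

variable {n : ℕ}

section

variable {f : MvPolynomial (Fin (n + 1)) ℂ} {d : ℕ} (hd : 2 ≤ d) (hf : f.IsHomogeneous d)
  (hf0 : f ≠ 0) (H : LH f)
include hd hf hf0 H

/-- **The root of the vertex, or a second torus.** -/
theorem sf_or_second : SF (fun _ : Fin 1 => f) 0 (-((n + 1 : ℕ) : ℂ) / d) ∨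
    ∃ (A B : Matrix (Fin (n + 1)) (Fin (n + 1)) ℂ) (w : Fin (n + 1) → ℤ) (c₀ : ℕ),
      A * B = 1 ∧ B * A = 1 ∧ ∑ i, w i ≠ 0 ∧ 0 < c₀ ∧ (∀ i, 0 < w i + c₀) ∧ ∀ c ≥ c₀,
      ∀ γ : Arc ℂ (Fin (n + 1)), aeval (tt A B (fun i => (w i + c).toNat) γ) f =
        PowerSeries.X ^ (c * d) * aeval γ f := by
  classical
  rw [or_iff_not_imp_left]
  intro hSF
  obtain ⟨H', b, hb, hH', hbα⟩ : ∃ (H' : MvPolynomial (Fin (n + 1)) ℂ) (b : Polynomial ℂ),
      IsLocEq H' (fun _ : Fin 1 => f) b ∧ eval 0 H' ≠ 0 ∧ b.eval (-((n + 1 : ℕ) : ℂ) / d) ≠ 0 := by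
    by_contra hc
    push Not at hc
    exact hSF (sf_of_local _ _ _ (fun H' b hb hH => hc H' b hb hH) (exists_fe _ ⟨0, hf0⟩))
  obtain ⟨P, hP⟩ := eq_of_locEq1 H' _ b hb
  have hd0 : (d : ℂ) ≠ 0 := by
    have : d ≠ 0 := by omega
    exact_mod_cast this
  have hc0 : constantCoeff f = 0 := by
    have h2 := eval_homog f d hf 0 0
    rw [zero_pow (by omega), zero_mul, zero_smul, eval_zero] at h2
    exact h2
  have hdv : constantCoeff (dv fun i : Fin (n + 1) => (X i : MvPolynomial (Fin (n + 1)) ℂ)) =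
      ((n + 1 : ℕ) : ℂ) := by
    unfold dv
    rw [map_sum]
    simp only [pderiv_X_self, map_one]
    rw [Finset.sum_const, Finset.card_univ, Fintype.card_fin, nsmul_eq_mul, mul_one]
  rcases root_or_field f hf0 hc0 (lty hd hf hf0 H) (fun i => X i) d hd0 (euler_hom f d hf)
    (fun i => by rw [constantCoeff_X]) H' (by rwa [eval_zero] at hH') b P hP with h1 | ⟨η, h1, h2⟩
  · rw [hdv] at h1
    exact absurd h1 hbα
  · exact exists_second f d (by omega) hf η h1 h2

variable {M : Meas ℂ (MK ℂ)} (hL : M.L = ((Lu ℂ : (MK ℂ)ˣ) : MK ℂ))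
include hL

/-- **The volumes of all arcs.** -/
theorem avoid (B : Finset ℂ) (hB : ∀ α ∈ B, ¬ SF (fun _ : Fin 1 => f) 0 α) :
    ∃ S : Finset (ℤ × ℤ), (∀ q ∈ S, q.1 < 0 ∧ 0 < q.2 ∧ ((q.1 : ℂ) / q.2) ∉ B) ∧
      VS M (((Lu ℂ)⁻¹ : (MK ℂ)ˣ) : MK ℂ) (fun _ => True) f ∈
        ratU (Lu ℂ) (S : Set (ℤ × ℤ)) := by
  classical
  obtain ⟨D, hD, hD1, hDl⟩ := exists_pairs hd hf hf0 H hL
  have hDB : ∀ q ∈ D, q.1 < 0 ∧ 0 < q.2 ∧ ((q.1 : ℂ) / q.2) ∉ B := fun q hq =>
    ⟨(hD q hq).1, (hD q hq).2.1, fun h => hB _ h (hD q hq).2.2⟩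
  have hsc : ∀ γ : Arc ℂ (Fin (n + 1)), aeval (fun i => PowerSeries.X * γ i) f =
      PowerSeries.X ^ d * aeval γ f := fun γ => aeval_homog f d hf γ _
  have hmono : ∀ q : ℤ × ℤ, (D : Set (ℤ × ℤ)) ⊆ ((insert q D : Finset (ℤ × ℤ)) : Set (ℤ × ℤ)) :=
    fun q => Finset.coe_subset.2 (Finset.subset_insert _ _)
  -- the volumes outside of the origin
  have hout : ∀ (q : ℤ × ℤ) (A : Matrix (Fin (n + 1)) (Fin (n + 1)) ℂ) (m : Fin (n + 1) → ℕ),
      VS M (((Lu ℂ)⁻¹ : (MK ℂ)ˣ) : MK ℂ) (fun γ => Box A m γ ∧ ¬ Or γ) f ∈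
        ratU (Lu ℂ) ((insert q D : Finset (ℤ × ℤ)) : Set (ℤ × ℤ)) := by
    intro q A m
    refine out_mem hd hf hf0 H hL _ (Finset.mem_coe.2 (Finset.mem_insert_of_mem hD1))
      (fun s hs hs' => rat_mono (Lu ℂ) (hmono q) (hDl s hs hs')) ((cyl_Box A m).and (cyl_Or _).not)
      (fun γ h => h.2) (∑ i, m i + 1) (Nat.succ_pos _) (an_box A m)
  by_cases h0 : (-((n + 1 : ℕ) : ℂ) / d) ∈ B
  · rcases sf_or_second hd hf hf0 H with h1 | ⟨A, A', w, c₀, hAA, hAA', hw, hc₀, hpos, hsec⟩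
    · exact absurd h1 (hB _ h0)
    · -- choose the second torus
      set r : ℕ → ℂ := fun c => -((∑ i, w i : ℤ) + ((n + 1 : ℕ) : ℂ) * c) / (c * d : ℕ) with hr
      have hinj : ∀ c c', 0 < c → 0 < c' → r c = r c' → c = c' := by
        intro c c' hc hc' h
        have hd0 : (d : ℂ) ≠ 0 := by
          have : d ≠ 0 := by omega
          exact_mod_cast this
        have hc0 : (c : ℂ) ≠ 0 := by exact_mod_cast hc.ne'
        have hc0' : (c' : ℂ) ≠ 0 := by exact_mod_cast hc'.ne'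
        have hw0 : ((∑ i, w i : ℤ) : ℂ) ≠ 0 := by exact_mod_cast hw
        simp only [hr] at h
        push_cast at h hw0
        rw [div_eq_div_iff (mul_ne_zero hc0 hd0) (mul_ne_zero hc0' hd0)] at h
        have h2 : (∑ i, (w i : ℂ)) * d * ((c : ℂ) - c') = 0 := by linear_combination h
        have h3 := (mul_eq_zero.1 h2).resolve_left (mul_ne_zero hw0 hd0)
        exact_mod_cast sub_eq_zero.1 h3
      obtain ⟨c, hc, hrc⟩ : ∃ c ≥ c₀, r c ∉ B := by
        by_contra hcon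
        push Not at hcon
        have h2 : Set.InjOn r (Set.Ici c₀) := fun x hx y hy h =>
          hinj x y (lt_of_lt_of_le hc₀ hx) (lt_of_lt_of_le hc₀ hy) h
        have h3 : (r '' Set.Ici c₀).Infinite := (Set.Ici_infinite c₀).image h2
        refine h3 (B.finite_toSet.subset ?_)
        rintro _ ⟨c, hc, rfl⟩
        exact hcon c hc
      have hposc : ∀ i, 0 < w i + c := fun i => by
        have := hpos i
        omega
      set a : Fin (n + 1) → ℕ := fun i => (w i + c).toNat with ha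
      have hasum : ((∑ i, a i : ℕ) : ℤ) = ∑ i, w i + (n + 1 : ℕ) * c := by
        rw [Nat.cast_sum]
        have h2 : ∀ i, ((a i : ℕ) : ℤ) = w i + c := fun i => Int.toNat_of_nonneg (hposc i).le
        rw [Finset.sum_congr rfl fun i _ => h2 i, Finset.sum_add_distrib, Finset.sum_const,
          Finset.card_univ, Fintype.card_fin, nsmul_eq_mul]
      have hapos : 0 < ∑ i, a i := Finset.sum_pos (fun i _ => by
        have := hposc i
        simp only [ha]
        omega) ⟨0, Finset.mem_univ _⟩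
      have hcd : 0 < c * d := Nat.mul_pos (by omega) (by omega)
      refine ⟨insert (-((∑ i, a i : ℕ) : ℤ), ((c * d : ℕ) : ℤ)) D, fun q hq => ?_, ?_⟩
      · rcases Finset.mem_insert.1 hq with rfl | hq
        · refine ⟨by simp only; omega, by simp only; exact_mod_cast hcd, ?_⟩
          have h2 : (((-((∑ i, a i : ℕ) : ℤ) : ℤ) : ℂ) / (((c * d : ℕ) : ℤ) : ℂ)) = r c := by
            rw [hasum, hr]
            push_cast
            ring
          simp only
          rw [h2]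
          exact hrc
        · exact hDB q hq
      · exact univ_second M (Lu ℂ) hL _ f d hsc hAA hAA' a (c * d) hcd (hsec c hc)
          (Finset.mem_coe.2 (Finset.mem_insert_self _ _)) (hout _ A)
  · refine ⟨insert (-((n + 1 : ℕ) : ℤ), (d : ℤ)) D, fun q hq => ?_, ?_⟩
    · rcases Finset.mem_insert.1 hq with rfl | hq
      · refine ⟨by simp only; omega, by simp only; omega, ?_⟩
        simp only
        push_cast at h0 ⊢
        exact h0
      · exact hDB q hq
    · refine univ_scalar M (Lu ℂ) hL _ f d (by omega) hsc ?_ ?_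
      · rw [Fintype.card_fin]
        exact Finset.mem_coe.2 (Finset.mem_insert_self _ _)
      · have h1 := hout (-((n + 1 : ℕ) : ℤ), (d : ℤ)) 1 (fun _ => 0)
        rw [box_zero M (Lu ℂ) hL] at h1
        simp only [true_and] at h1
        exact h1

end

section

variable {M : Meas ℂ (MK ℂ)}

theorem vw_univ {σ : Type} [Fintype σ] {v : MK ℂ} (hv : M.L * v = 1) (g : MvPolynomial σ ℂ) :
    VW M v (fun _ : Fin 1 => g) Set.univ = VS M v (fun _ => True) g := by
  ext k
  rw [coeff_VW, VS_origin M hv g Constr.univ]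
  congr 2

theorem vw_zero {σ : Type} [Fintype σ] {v : MK ℂ} (hv : M.L * v = 1) (g : MvPolynomial σ ℂ) :
    VW M v (fun _ : Fin 1 => g) {0} = VS M v Or g := by
  ext k
  rw [coeff_VW, VS_origin M hv g constr_pt0]
  congr 2
  refine funext fun γ => propext ?_
  rw [Set.mem_singleton_iff]
  exact ⟨fun h i => congrFun h i, fun h => funext h⟩

end

end Pool.Agent.H940.G
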