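import Pool.Agent.H940.G.Line
import Pool.Agent.H940.LT.Hom

set_option autoImplicit false
set_option linter.unusedSectionVars false
set_option linter.unusedVariables false

/-! # The singular lines of a form -/

namespace Pool.Agent.H940.G

open MvPolynomial Pool.Agent.W428.MOT Pool.Agent.TH192.MT Pool.Agent.TH192.DT Pool.Agent.Q49.CO
open Pool.Agent.Q57.QM Pool.Agent.Y229 Pool.Agent.Q57.MC Pool.Agent.Q57.MD
open Pool.Agent.H940.LT (eval_homog euler_hom LTy hom_lty)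
open Pool.Agent.H940.Z

variable {n : ℕ}

/-- the point with coordinate `1` at `i` -/
def pt (s : Fin (n + 1) × (Fin n → ℂ)) : Fin (n + 1) → ℂ := s.1.insertNth 1 s.2

theorem pt_same (s : Fin (n + 1) × (Fin n → ℂ)) : pt s s.1 = 1 := Fin.insertNth_apply_same _ _ _

theorem pt_above (s : Fin (n + 1) × (Fin n → ℂ)) (t : Fin n) : pt s (s.1.succAbove t) = s.2 t :=
  Fin.insertNth_apply_succAbove _ _ _ _

theorem pt_ne (s : Fin (n + 1) × (Fin n → ℂ)) : pt s ≠ 0 := by
  intro h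
  have := congrFun h s.1
  rw [pt_same] at this
  exact one_ne_zero this

/-- the line through the point -/
def On (s : Fin (n + 1) × (Fin n → ℂ)) (x : Fin (n + 1) → ℂ) : Prop :=
  x s.1 ≠ 0 ∧ ∀ t, x (s.1.succAbove t) = s.2 t * x s.1

theorem On.eq {s : Fin (n + 1) × (Fin n → ℂ)} {x : Fin (n + 1) → ℂ} (h : On s x) :
    x = x s.1 • pt s := by
  funext j
  rw [Pi.smul_apply, smul_eq_mul]
  induction j using s.1.succAboveCases with
  | x => rw [pt_same, mul_one]
  | p t => rw [pt_above, h.2 t, mul_comm]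

theorem on_pt (s : Fin (n + 1) × (Fin n → ℂ)) : On s (pt s) :=
  ⟨by rw [pt_same]; exact one_ne_zero, fun t => by rw [pt_above, pt_same, mul_one]⟩

/-- the coordinates before `i` are zero -/
def Cn (s : Fin (n + 1) × (Fin n → ℂ)) : Prop := ∀ j < s.1, pt s j = 0

theorem On.unique {s s' : Fin (n + 1) × (Fin n → ℂ)} (hs : Cn s) (hs' : Cn s')
    {x : Fin (n + 1) → ℂ} (h : On s x) (h' : On s' x) : s = s' := by
  have h1 : s.1 = s'.1 := by
    rcases lt_trichotomy s.1 s'.1 with h2 | h2 | h2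
    · exfalso
      apply h.1
      rw [h'.eq, Pi.smul_apply, hs' _ h2, smul_zero]
    · exact h2
    · exfalso
      apply h'.1
      rw [h.eq, Pi.smul_apply, hs _ h2, smul_zero]
  obtain ⟨i, q⟩ := s
  obtain ⟨i', q'⟩ := s'
  simp only at h1
  subst h1
  refine Prod.ext rfl (funext fun t => ?_)
  have h3 := h.2 t
  rw [h'.2 t] at h3
  exact (mul_right_cancel₀ h.1 h3).symm

theorem exists_On (x : Fin (n + 1) → ℂ) (hx : x ≠ 0) :
    ∃ s : Fin (n + 1) × (Fin n → ℂ), Cn s ∧ On s x := by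
  classical
  obtain ⟨i, hi⟩ := Function.ne_iff.1 hx
  set S := Finset.univ.filter fun i => x i ≠ 0 with hS
  have hne : S.Nonempty := ⟨i, Finset.mem_filter.2 ⟨Finset.mem_univ i, hi⟩⟩
  set i₀ := S.min' hne with hi₀
  have h2 : x i₀ ≠ 0 := (Finset.mem_filter.1 (S.min'_mem hne)).2
  have h3 : ∀ j < i₀, x j = 0 := by
    intro j hj
    by_contra hc
    exact absurd (S.min'_le j (Finset.mem_filter.2 ⟨Finset.mem_univ j, hc⟩)) (not_le.2 hj)
  have hon : On (i₀, fun t => x (i₀.succAbove t) / x i₀) x :=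
    ⟨h2, fun t => (div_mul_cancel₀ _ h2).symm⟩
  refine ⟨(i₀, fun t => x (i₀.succAbove t) / x i₀), fun j hj => ?_, hon⟩
  have h4 := congrFun hon.eq j
  rw [h3 j hj, Pi.smul_apply, smul_eq_mul] at h4
  exact (mul_eq_zero.1 h4.symm).resolve_left h2

/-- singular points -/
def Sg (f : MvPolynomial (Fin (n + 1)) ℂ) (x : Fin (n + 1) → ℂ) : Prop :=
  ∀ j, eval x (pderiv j f) = 0

theorem Sg.smul {f : MvPolynomial (Fin (n + 1)) ℂ} {d : ℕ} (hf : f.IsHomogeneous d)
    {x : Fin (n + 1) → ℂ} (h : Sg f x) (c : ℂ) : Sg f (c • x) := by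
  intro j
  rw [eval_homog _ (d - 1) hf.pderiv, h j, mul_zero]

theorem On.sg {f : MvPolynomial (Fin (n + 1)) ℂ} {d : ℕ} (hf : f.IsHomogeneous d)
    {s : Fin (n + 1) × (Fin n → ℂ)} {x : Fin (n + 1) → ℂ} (h : On s x) (hx : Sg f x) :
    Sg f (pt s) := by
  have h1 : pt s = (x s.1)⁻¹ • x := by
    conv_rhs => rw [h.eq]
    rw [smul_smul, Pi.smul_apply, pt_same, smul_eq_mul, mul_one, inv_mul_cancel₀ h.1, one_smul]
  rw [h1]
  exact hx.smul hf _

/-- the class of forms -/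
def LH (f : MvPolynomial (Fin (n + 1)) ℂ) : Prop :=
  ∀ (i : Fin (n + 1)) (q : Fin n → ℂ), (∀ j, eval (i.insertNth 1 q) (pderiv j f) = 0) →
    ∃ (g : MvPolynomial (Fin n) ℂ) (w : Fin n → ℕ) (N : ℕ) (η : Fin n → MvPowerSeries (Fin n) ℂ),
      WHG (germAt i q f) g w N η

section

variable {f : MvPolynomial (Fin (n + 1)) ℂ} {d : ℕ} (hd : 2 ≤ d) (hf : f.IsHomogeneous d)
  (hf0 : f ≠ 0)
include hd hf hf0

theorem eval_sg {x : Fin (n + 1) → ℂ} (h : Sg f x) : eval x f = 0 := by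
  have h1 := congrArg (eval x) (euler_hom f d hf)
  rw [map_sum, map_mul, eval_C] at h1
  have h2 : ∑ i, eval x (X i * pderiv i f) = 0 := Finset.sum_eq_zero fun i _ => by
    rw [map_mul, h i, mul_zero]
  rw [h2] at h1
  have hd0 : (d : ℂ) ≠ 0 := by
    have : d ≠ 0 := by omega
    exact_mod_cast this
  exact (mul_eq_zero.1 h1.symm).resolve_left hd0

theorem pos_of_sg {x : Fin (n + 1) → ℂ} (hx : x ≠ 0) (h : Sg f x) : 0 < n := by
  rcases Nat.eq_zero_or_pos n with h0 | h0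
  · exfalso
    subst h0
    apply hf0
    refine MvPolynomial.funext fun y => ?_
    have hx0 : x 0 ≠ 0 := by
      intro h1
      apply hx
      funext j
      rw [Fin.fin_one_eq_zero j, h1]
      rfl
    have h1 : y = (y 0 / x 0) • x := by
      funext j
      rw [Fin.fin_one_eq_zero j, Pi.smul_apply, smul_eq_mul, div_mul_cancel₀ _ hx0]
    rw [h1, eval_homog f d hf, eval_sg hd hf hf0 h, mul_zero, map_zero]
  · exact h0

theorem cc_germ {s : Fin (n + 1) × (Fin n → ℂ)} (h : Sg f (pt s)) :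
    constantCoeff (germAt s.1 s.2 f) = 0 := by
  have h1 := eval_germAt s.1 s.2 f d hf (pt s) (by rw [pt_same]; exact one_ne_zero)
  rw [eval_sg hd hf hf0 h, cd_pt s.1 s.2 1 one_ne_zero (pt s) (pt_same s) (fun t => by
    rw [pt_above, mul_one]), pt_same, one_pow, one_mul, eval_zero] at h1
  exact h1.symm

theorem cc_pd_germ {s : Fin (n + 1) × (Fin n → ℂ)} (h : Sg f (pt s)) (t : Fin n) :
    constantCoeff (pderiv t (germAt s.1 s.2 f)) = 0 := by
  have h1 := eval_germAt s.1 s.2 (pderiv (s.1.succAbove t) f) (d - 1) hf.pderiv (pt s)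
    (by rw [pt_same]; exact one_ne_zero)
  rw [h, cd_pt s.1 s.2 1 one_ne_zero (pt s) (pt_same s) (fun t => by
    rw [pt_above, mul_one]), pt_same, one_pow, one_mul, eval_zero, ← pderiv_germAt] at h1
  exact h1.symm

variable (H : LH f)
include H

theorem euler_line {s : Fin (n + 1) × (Fin n → ℂ)} (h : Sg f (pt s)) :
    ∃ (U : MvPolynomial (Fin (n + 1)) ℂ) (A : Fin (n + 1) → MvPolynomial (Fin (n + 1)) ℂ),
      U * f = ∑ j, A j * pderiv j f ∧ ∀ x : Fin (n + 1) → ℂ, On s x →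
        eval x U ≠ 0 ∧ ∀ j, eval x (A j) = 0 := by
  obtain ⟨g, w, N, η, hg⟩ := H s.1 s.2 h
  obtain ⟨u, a, hu, ha, h2⟩ := exists_euler hg (cc_germ hd hf hf0 h) (cc_pd_germ hd hf hf0 h)
    (pos_of_sg hd hf hf0 (pt_ne s) h)
  obtain ⟨U, A, h3, h4⟩ := euler_at f d (by omega) hf s.1 s.2 u a hu ha h2
  exact ⟨U, A, h3, fun x hx => h4 x hx.1 hx.2⟩

theorem pow_line {s : Fin (n + 1) × (Fin n → ℂ)} (h : Sg f (pt s)) :
    ∃ (L : ℕ) (U : MvPolynomial (Fin (n + 1)) ℂ), (∀ x : Fin (n + 1) → ℂ, On s x → eval x U ≠ 0) ∧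
      ∀ t, U * an s.1 s.2 t ^ L ∈ Ideal.span (Set.range fun j => pderiv j f) := by
  obtain ⟨g, w, N, η, hg⟩ := H s.1 s.2 h
  obtain ⟨L, u, hu, h2⟩ := exists_pow hg (cc_germ hd hf hf0 h) (cc_pd_germ hd hf hf0 h)
    (pos_of_sg hd hf hf0 (pt_ne s) h)
  obtain ⟨U, h3, h4⟩ := pow_at f d (by omega) hf s.1 s.2 L u hu h2
  exact ⟨L, U, fun x hx => h3 x hx.1 hx.2, h4⟩

/-- **There are only finitely many singular lines.** -/
theorem finite_lines : {s : Fin (n + 1) × (Fin n → ℂ) | Cn s ∧ Sg f (pt s)}.Finite := by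
  classical
  set 𝒮 : Set (Fin (n + 1) × (Fin n → ℂ)) := {s | Cn s ∧ Sg f (pt s)} with h𝒮
  choose! L U hU hmem using fun (s : Fin (n + 1) × (Fin n → ℂ)) (h : s ∈ 𝒮) =>
    pow_line hd hf hf0 H h.2
  obtain ⟨T, hT, hspan⟩ := Submodule.fg_span_iff_fg_span_finset_subset
    (R := MvPolynomial (Fin (n + 1)) ℂ) (U '' 𝒮) |>.1 (IsNoetherian.noetherian _)
  obtain ⟨T', hT'𝒮, hT'⟩ : ∃ T' : Finset (Fin (n + 1) × (Fin n → ℂ)), (∀ s ∈ T', s ∈ 𝒮) ∧
      ∀ P ∈ T, ∃ s ∈ T', U s = P := by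
    choose! c hc using fun (P : MvPolynomial (Fin (n + 1)) ℂ) (hP : P ∈ U '' 𝒮) => hP
    refine ⟨T.image c, fun s hs => ?_, fun P hP => ?_⟩
    · obtain ⟨P, hP, rfl⟩ := Finset.mem_image.1 hs
      exact (hc P (hT hP)).1
    · exact ⟨c P, Finset.mem_image_of_mem _ hP, (hc P (hT hP)).2⟩
  refine T'.finite_toSet.subset fun s hs => ?_
  -- one of the finitely many `U` does not vanish at the point
  have h1 : ∃ s' ∈ T', eval (pt s) (U s') ≠ 0 := by
    by_contra hc
    push Not at hc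
    have h2 : U s ∈ Submodule.span (MvPolynomial (Fin (n + 1)) ℂ) (U '' 𝒮) :=
      Submodule.subset_span ⟨s, hs, rfl⟩
    rw [hspan] at h2
    have h3 : Submodule.span (MvPolynomial (Fin (n + 1)) ℂ) (T : Set (MvPolynomial (Fin (n + 1)) ℂ)) ≤
        RingHom.ker (eval (pt s)) := by
      refine Submodule.span_le.2 fun P hP => ?_
      obtain ⟨s', hs', rfl⟩ := hT' P hP
      exact hc s' hs'
    exact hU s hs (pt s) (on_pt s) (h3 h2)
  obtain ⟨s', hs', h2⟩ := h1
  have h3 : On s' (pt s) := by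
    have h4 : ∀ t, eval (pt s) (an s'.1 s'.2 t) = 0 := by
      intro t
      have h5 : Ideal.span (Set.range fun j => pderiv j f) ≤ RingHom.ker (eval (pt s)) := by
        refine Ideal.span_le.2 ?_
        rintro _ ⟨j, rfl⟩
        exact hs.2 j
      have h6 := h5 (hmem s' (hT'𝒮 s' hs') t)
      rw [RingHom.mem_ker, map_mul, map_pow] at h6
      exact eq_zero_of_pow_eq_zero ((mul_eq_zero.1 h6).resolve_left h2)
    have h5 : ∀ t, pt s (s'.1.succAbove t) = s'.2 t * pt s s'.1 := by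
      intro t
      have := h4 t
      unfold an at this
      rw [map_sub, map_mul, eval_X, eval_X, eval_C] at this
      linear_combination this
    refine ⟨fun h6 => pt_ne s (funext fun j => ?_), h5⟩
    induction j using s'.1.succAboveCases with
    | x => rw [h6, Pi.zero_apply]
    | p t => rw [h5 t, h6, mul_zero, Pi.zero_apply]
  have h4 : s = s' := (on_pt s).unique hs.1 (hT'𝒮 s' hs').1 h3
  rw [h4]
  exact hs'

/-- **The Jacobian ideal is of linear type.** -/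
theorem lty : LTy fun i => pderiv i f := by
  classical
  set S := (finite_lines hd hf hf0 H).toFinset with hS
  refine hom_lty f hf0 d hd hf (S.image pt) ?_ ?_ ?_
  · intro p hp
    obtain ⟨s, _, rfl⟩ := Finset.mem_image.1 hp
    exact pt_ne s
  · intro q hq hsg
    obtain ⟨s, hs, hon⟩ := exists_On q hq
    exact ⟨pt s, Finset.mem_image_of_mem _ ((Set.Finite.mem_toFinset _).2 ⟨hs, hon.sg hf hsg⟩),
      _, hon.eq⟩
  · intro q hq hsg
    obtain ⟨s, hs, hon⟩ := exists_On q hq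
    obtain ⟨U, A, h1, h2⟩ := euler_line hd hf hf0 H (hon.sg hf hsg)
    exact ⟨U, A, (h2 q hon).1, (h2 q hon).2, h1⟩

/-- the germs satisfy the main induction hypothesis -/
theorem germ_pm {M : Meas ℂ (MK ℂ)} (hL : M.L = ((Lu ℂ : (MK ℂ)ˣ) : MK ℂ))
    {s : Fin (n + 1) × (Fin n → ℂ)} (h : Sg f (pt s)) :
    PM M true (fun _ : Fin 1 => germAt s.1 s.2 f) := by
  have hn := pos_of_sg hd hf hf0 (pt_ne s) h
  obtain ⟨g, w, N, η, hg⟩ := H s.1 s.2 h
  have h1 := whi hg (cc_germ hd hf hf0 h) (cc_pd_germ hd hf hf0 h)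
  refine pm_formal hL (fun _ : Fin 1 => germAt s.1 s.2 f) (fun _ : Fin 1 => g) η id hg.cc hg.det ?_
    (h1.pm hL hn)
  rw [Set.range_const, Set.range_const]
  exact hg.gen

end

end Pool.Agent.H940.G
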