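import Mathlib

set_option autoImplicit false

/-! # Germs of the affine charts, weighted homogeneous isolated singularities -/

namespace Pool.Agent.H940.G

/-- The polynomial `f(x)` with `x_i = 1` and with `q_t + y_t` for the other coordinates: the germ of the
dehomogenized form at the point `q` of the chart `x_i = 1` of the projective space. -/
noncomputable def germAt {n : ℕ} (i : Fin (n + 1)) (q : Fin n → ℂ)
    (f : MvPolynomial (Fin (n + 1)) ℂ) : MvPolynomial (Fin n) ℂ :=
  MvPolynomial.aeval (i.insertNth 1 fun t => MvPolynomial.X t + MvPolynomial.C (q t) :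
    Fin (n + 1) → MvPolynomial (Fin n) ℂ) f

/-- In the formal coordinates `η_1, …, η_n` (formal power series without constant terms and with an
invertible Jacobian matrix at the origin) the hypersurface `{h = 0}` is given by the polynomial `g`
(the ideals generated by `h` and `g(η)` in the ring of formal power series are equal), where `g` is
weighted homogeneous of degree `N` for the positive weights `w_1, …, w_n`, and `g` has no critical point
outside of the origin. -/
structure WHG {n : ℕ} (h : MvPolynomial (Fin n) ℂ) (g : MvPolynomial (Fin n) ℂ) (w : Fin n → ℕ)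
    (N : ℕ) (η : Fin n → MvPowerSeries (Fin n) ℂ) : Prop where
  wpos : ∀ i, 0 < w i
  hom : MvPolynomial.IsWeightedHomogeneous w g N
  crit : ∀ v : Fin n → ℂ, (∀ i, MvPolynomial.eval v (MvPolynomial.pderiv i g) = 0) → v = 0
  cc : ∀ t, MvPowerSeries.constantCoeff (η t) = 0
  det : (Matrix.of fun u t => MvPowerSeries.coeff (Finsupp.single u 1) (η t)).det ≠ 0
  gen : Ideal.span {(h : MvPowerSeries (Fin n) ℂ)} = Ideal.span {MvPolynomial.aeval η g}

end Pool.Agent.H940.G
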