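import Pool.Agent.H940.G.Formal

set_option autoImplicit false
set_option linter.unusedSectionVars false
set_option linter.unusedVariables false

/-! # The affine charts of a form -/

namespace Pool.Agent.H940.G

open MvPolynomial
open Pool.Agent.H940.LT (eval_homog)

variable {n : ℕ}

theorem pderiv_germAt (i : Fin (n + 1)) (q : Fin n → ℂ) (f : MvPolynomial (Fin (n + 1)) ℂ)
    (t : Fin n) : pderiv t (germAt i q f) = germAt i q (pderiv (i.succAbove t) f) := by
  classical
  unfold germAt
  induction f using MvPolynomial.induction_on with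
  | C a => rw [algHom_C, pderiv_C, map_zero, algebraMap_eq, pderiv_C]
  | add p q hp hq => rw [map_add, map_add, hp, hq, map_add, map_add]
  | mul_X p j hp =>
    rw [map_mul, pderiv_mul, hp, aeval_X, pderiv_mul, map_add, map_mul, map_mul, aeval_X]
    congr 2
    induction j using i.succAboveCases with
    | x => rw [Fin.insertNth_apply_same, pderiv_one, pderiv_X_of_ne (Fin.ne_succAbove i t),
        map_zero]
    | p j =>
      rw [Fin.insertNth_apply_succAbove, map_add, pderiv_C, add_zero]
      by_cases h : j = t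
      · subst h
        rw [pderiv_X_self, pderiv_X_self, map_one]
      · rw [pderiv_X_of_ne h, pderiv_X_of_ne, map_zero]
        intro h2
        exact h (Fin.succAbove_right_injective h2)

/-- the coordinates of the chart -/
noncomputable def cd (i : Fin (n + 1)) (q : Fin n → ℂ) (x : Fin (n + 1) → ℂ) : Fin n → ℂ :=
  fun t => x (i.succAbove t) / x i - q t

theorem eval_germAt (i : Fin (n + 1)) (q : Fin n → ℂ) (f : MvPolynomial (Fin (n + 1)) ℂ) (d : ℕ)
    (hf : f.IsHomogeneous d) (x : Fin (n + 1) → ℂ) (hx : x i ≠ 0) :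
    eval x f = x i ^ d * eval (cd i q x) (germAt i q f) := by
  have h1 : (eval (cd i q x)).comp (aeval (i.insertNth 1 fun t => X t + C (q t) :
      Fin (n + 1) → MvPolynomial (Fin n) ℂ) : MvPolynomial (Fin (n + 1)) ℂ →ₐ[ℂ] _).toRingHom =
      eval ((x i)⁻¹ • x) := by
    apply ringHom_ext
    · intro r
      simp
    · intro j
      simp only [AlgHom.toRingHom_eq_coe, RingHom.coe_comp, RingHom.coe_coe, Function.comp_apply,
        aeval_X, eval_X]
      induction j using i.succAboveCases with
      | x => rw [Fin.insertNth_apply_same, map_one, Pi.smul_apply, smul_eq_mul, inv_mul_cancel₀ hx]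
      | p j =>
        rw [Fin.insertNth_apply_succAbove, map_add, eval_X, eval_C, Pi.smul_apply, smul_eq_mul]
        unfold cd
        field_simp
        ring
  have h2 : eval (cd i q x) (germAt i q f) = eval ((x i)⁻¹ • x) f := RingHom.congr_fun h1 f
  rw [h2, eval_homog f d hf, ← mul_assoc, ← mul_pow, mul_inv_cancel₀ hx, one_pow, one_mul]

/-- homogenization of finitely many polynomials -/
theorem exists_hz {ι : Type} [Finite ι] (i : Fin (n + 1)) (q : Fin n → ℂ)
    (P : ι → MvPolynomial (Fin n) ℂ) : ∃ (K : ℕ) (Q : ι → MvPolynomial (Fin (n + 1)) ℂ),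
      ∀ j, ∀ x : Fin (n + 1) → ℂ, x i ≠ 0 → eval x (Q j) = x i ^ K * eval (cd i q x) (P j) := by
  cases nonempty_fintype ι
  have h1 : ∀ P : MvPolynomial (Fin n) ℂ, ∃ (K : ℕ) (Q : MvPolynomial (Fin (n + 1)) ℂ),
      ∀ x : Fin (n + 1) → ℂ, x i ≠ 0 → eval x Q = x i ^ K * eval (cd i q x) P := by
    intro P
    induction P using MvPolynomial.induction_on with
    | C a => exact ⟨0, C a, fun x _ => by rw [eval_C, eval_C, pow_zero, one_mul]⟩
    | add p r hp hr =>
      obtain ⟨K1, Q1, h1⟩ := hp
      obtain ⟨K2, Q2, h2⟩ := hr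
      refine ⟨K1 + K2, X i ^ K2 * Q1 + X i ^ K1 * Q2, fun x hx => ?_⟩
      rw [map_add, map_mul, map_mul, map_pow, map_pow, eval_X, h1 x hx, h2 x hx, map_add, pow_add]
      ring
    | mul_X p t hp =>
      obtain ⟨K, Q, h⟩ := hp
      refine ⟨K + 1, Q * (X (i.succAbove t) - C (q t) * X i), fun x hx => ?_⟩
      rw [map_mul, map_sub, map_mul, eval_X, eval_X, eval_C, h x hx, map_mul, eval_X]
      have h3 : x (i.succAbove t) - q t * x i = x i * cd i q x t := by
        unfold cd
        field_simp
      rw [h3, pow_succ]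
      ring
  choose K Q hQ using fun j => h1 (P j)
  refine ⟨∑ j, K j, fun j => X i ^ (∑ j, K j - K j) * Q j, fun j x hx => ?_⟩
  rw [map_mul, map_pow, eval_X, hQ j x hx, ← mul_assoc, ← pow_add]
  congr 2
  have := Finset.single_le_sum (fun j _ => Nat.zero_le (K j)) (Finset.mem_univ j)
  omega

/-- equality of polynomials which are equal where `x_i ≠ 0` -/
theorem eq_of_eval (i : Fin (n + 1)) (P Q : MvPolynomial (Fin (n + 1)) ℂ)
    (h : ∀ x : Fin (n + 1) → ℂ, x i ≠ 0 → eval x P = eval x Q) : P = Q := by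
  have h1 : X i * P = X i * Q := by
    refine MvPolynomial.funext fun x => ?_
    rw [map_mul, map_mul, eval_X]
    by_cases hx : x i = 0
    · rw [hx, zero_mul, zero_mul]
    · rw [h x hx]
  exact mul_left_cancel₀ (X_ne_zero i) h1

theorem cd_pt (i : Fin (n + 1)) (q : Fin n → ℂ) (c : ℂ) (hc : c ≠ 0) (x : Fin (n + 1) → ℂ)
    (hi : x i = c) (hx : ∀ t, x (i.succAbove t) = q t * c) : cd i q x = 0 := by
  funext t
  unfold cd
  rw [hx, hi, mul_div_assoc, div_self hc, mul_one, sub_self, Pi.zero_apply]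

section

variable (f : MvPolynomial (Fin (n + 1)) ℂ) (d : ℕ) (hd : 1 ≤ d) (hf : f.IsHomogeneous d)
  (i : Fin (n + 1)) (q : Fin n → ℂ)
include hd hf

theorem eval_pd (t : Fin n) (x : Fin (n + 1) → ℂ) (hx : x i ≠ 0) :
    eval x (pderiv (i.succAbove t) f) = x i ^ (d - 1) *
      eval (cd i q x) (pderiv t (germAt i q f)) := by
  rw [pderiv_germAt]
  exact eval_germAt i q _ (d - 1) hf.pderiv x hx

/-- the Euler relation of the germ -/
theorem euler_at (u : MvPolynomial (Fin n) ℂ) (a : Fin n → MvPolynomial (Fin n) ℂ)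
    (hu : constantCoeff u ≠ 0) (ha : ∀ t, constantCoeff (a t) = 0)
    (h : u * germAt i q f = ∑ t, a t * pderiv t (germAt i q f)) :
    ∃ (U : MvPolynomial (Fin (n + 1)) ℂ) (A : Fin (n + 1) → MvPolynomial (Fin (n + 1)) ℂ),
      U * f = ∑ j, A j * pderiv j f ∧ ∀ x : Fin (n + 1) → ℂ, x i ≠ 0 →
        (∀ t, x (i.succAbove t) = q t * x i) → eval x U ≠ 0 ∧ ∀ j, eval x (A j) = 0 := by
  obtain ⟨K, Q, hQ⟩ := exists_hz i q (fun o : Option (Fin n) => o.elim u a)
  refine ⟨Q none, i.insertNth 0 fun t => X i * Q (some t), ?_, fun x hx hxq => ⟨?_, fun j => ?_⟩⟩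
  · refine eq_of_eval i _ _ fun x hx => ?_
    rw [Fin.sum_univ_succAbove _ i, Fin.insertNth_apply_same, zero_mul, zero_add, map_mul,
      map_sum, hQ none x hx, eval_germAt i q f d hf x hx]
    have h1 := congrArg (eval (cd i q x)) h
    rw [map_mul, map_sum] at h1
    change x i ^ K * eval (cd i q x) u * (x i ^ d * eval (cd i q x) (germAt i q f)) = _
    have h2 : x i ^ K * eval (cd i q x) u * (x i ^ d * eval (cd i q x) (germAt i q f)) =
        x i ^ K * x i ^ d * (eval (cd i q x) u * eval (cd i q x) (germAt i q f)) := by ring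
    rw [h2, h1, Finset.mul_sum]
    refine Finset.sum_congr rfl fun t _ => ?_
    rw [Fin.insertNth_apply_succAbove, map_mul, map_mul, map_mul, eval_X, hQ (some t) x hx,
      eval_pd f d hd hf i q t x hx]
    change _ = x i * (x i ^ K * eval (cd i q x) (a t)) * _
    have h3 : x i ^ d = x i * x i ^ (d - 1) := by
      rw [← pow_succ']
      congr 1
      omega
    rw [h3]
    ring
  · rw [hQ none x hx, cd_pt i q (x i) hx x rfl hxq, eval_zero]
    exact mul_ne_zero (pow_ne_zero _ hx) hu
  · induction j using i.succAboveCases with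
    | x => rw [Fin.insertNth_apply_same, map_zero]
    | p t =>
      rw [Fin.insertNth_apply_succAbove, map_mul, hQ (some t) x hx,
        cd_pt i q (x i) hx x rfl hxq, eval_zero]
      change _ * (_ * constantCoeff (a t)) = 0
      rw [ha, mul_zero, mul_zero]

/-- powers of the local coordinates -/
theorem pow_at (L : ℕ) (u : MvPolynomial (Fin n) ℂ) (hu : constantCoeff u ≠ 0)
    (h : ∀ t, u * X t ^ L ∈ Ideal.span (Set.range fun t => pderiv t (germAt i q f))) :
    ∃ U : MvPolynomial (Fin (n + 1)) ℂ, (∀ x : Fin (n + 1) → ℂ, x i ≠ 0 →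
        (∀ t, x (i.succAbove t) = q t * x i) → eval x U ≠ 0) ∧
      ∀ t, U * (X (i.succAbove t) - C (q t) * X i) ^ L ∈
        Ideal.span (Set.range fun j => pderiv j f) := by
  choose c hc using fun t => (Ideal.mem_span_range_iff_exists_fun
    (R := MvPolynomial (Fin n) ℂ)).1 (h t)
  obtain ⟨K, Q, hQ⟩ := exists_hz i q (fun o : Option (Fin n × Fin n) => o.elim u
    fun z => c z.1 z.2)
  refine ⟨X i ^ (d - 1) * Q none, fun x hx hxq => ?_, fun t => ?_⟩
  · rw [map_mul, map_pow, eval_X, hQ none x hx, cd_pt i q (x i) hx x rfl hxq, eval_zero]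
    exact mul_ne_zero (pow_ne_zero _ hx) (mul_ne_zero (pow_ne_zero _ hx) hu)
  · have h1 : X i ^ (d - 1) * Q none * (X (i.succAbove t) - C (q t) * X i) ^ L =
        ∑ s, X i ^ L * Q (some (t, s)) * pderiv (i.succAbove s) f := by
      refine eq_of_eval i _ _ fun x hx => ?_
      have h2 := congrArg (eval (cd i q x)) (hc t)
      rw [map_sum, map_mul, map_pow, eval_X] at h2
      simp only [map_sum, map_mul, map_pow, map_sub, eval_X, eval_C]
      rw [hQ none x hx]
      have h3 : x (i.succAbove t) - q t * x i = x i * cd i q x t := by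
        unfold cd
        field_simp
      rw [h3, mul_pow]
      change x i ^ (d - 1) * (x i ^ K * eval (cd i q x) u) * (x i ^ L * cd i q x t ^ L) = _
      have h4 : x i ^ (d - 1) * (x i ^ K * eval (cd i q x) u) * (x i ^ L * cd i q x t ^ L) =
          x i ^ (d - 1) * x i ^ K * x i ^ L * (eval (cd i q x) u * cd i q x t ^ L) := by ring
      rw [h4, ← h2, Finset.mul_sum]
      refine Finset.sum_congr rfl fun s _ => ?_
      rw [hQ (some (t, s)) x hx, eval_pd f d hd hf i q s x hx, map_mul]
      change _ = x i ^ L * (x i ^ K * eval (cd i q x) (c t s)) * _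
      ring
    rw [h1]
    exact Ideal.sum_mem _ fun s _ => Ideal.mul_mem_left _ _ (Ideal.subset_span ⟨_, rfl⟩)

end

end Pool.Agent.H940.G
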