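import Mathlib

set_option autoImplicit false
set_option linter.unusedSectionVars false
set_option linter.unusedVariables false

/-! # Linear vector fields of a form -/

namespace Pool.Agent.H940.G.LA

open MvPolynomial

variable {m : ℕ}

/-- linear forms -/
noncomputable def lf : (Fin m → ℂ) →ₗ[ℂ] MvPolynomial (Fin m) ℂ where
  toFun c := ∑ i, C (c i) * X i
  map_add' c c' := by
    rw [← Finset.sum_add_distrib]
    exact Finset.sum_congr rfl fun i _ => by rw [Pi.add_apply, map_add, add_mul]
  map_smul' r c := by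
    rw [RingHom.id_apply, smul_eq_C_mul, Finset.mul_sum]
    exact Finset.sum_congr rfl fun i _ => by rw [Pi.smul_apply, smul_eq_mul, map_mul, mul_assoc]

theorem lf_apply (c : Fin m → ℂ) : lf c = ∑ i, C (c i) * X i := rfl

theorem lf_single (i : Fin m) : lf (Pi.single i 1) = X i := by
  rw [lf_apply, Finset.sum_eq_single i]
  · rw [Pi.single_eq_same, map_one, one_mul]
  · intro j _ hj
    rw [Pi.single_eq_of_ne hj, map_zero, zero_mul]
  · intro h
    exact absurd (Finset.mem_univ i) h

/-- the derivation of a linear map -/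
noncomputable def Dl (T : Module.End ℂ (Fin m → ℂ)) :
    Derivation ℂ (MvPolynomial (Fin m) ℂ) (MvPolynomial (Fin m) ℂ) :=
  mkDerivation ℂ fun i => lf (T (Pi.single i 1))

theorem Dl_X (T : Module.End ℂ (Fin m → ℂ)) (i : Fin m) : Dl T (X i) = lf (T (Pi.single i 1)) :=
  mkDerivation_X _ _ _

theorem Dl_lf (T : Module.End ℂ (Fin m → ℂ)) (c : Fin m → ℂ) : Dl T (lf c) = lf (T c) := by
  rw [lf_apply, map_sum]
  have h1 : c = ∑ i, c i • Pi.single i (1 : ℂ) := by
    funext j
    simp [Finset.sum_apply, Pi.single_apply]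
  conv_rhs => rw [h1, map_sum, map_sum]
  refine Finset.sum_congr rfl fun i _ => ?_
  rw [C_mul', Derivation.map_smul, map_smul, map_smul, Dl_X]

theorem Dl_add (T T' : Module.End ℂ (Fin m → ℂ)) : Dl (T + T') = Dl T + Dl T' := by
  refine derivation_ext fun i => ?_
  rw [Derivation.add_apply, Dl_X, Dl_X, Dl_X, LinearMap.add_apply, map_add]

theorem Dl_comm {T T' : Module.End ℂ (Fin m → ℂ)} (h : T * T' = T' * T)
    (p : MvPolynomial (Fin m) ℂ) : Dl T (Dl T' p) = Dl T' (Dl T p) := by
  have h1 : ⁅Dl T, Dl T'⁆ = 0 := by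
    refine derivation_ext fun i => ?_
    rw [Derivation.commutator_apply, Dl_X, Dl_X, Dl_lf, Dl_lf, Derivation.zero_apply, ← map_sub]
    have h2 : T (T' (Pi.single i 1)) - T' (T (Pi.single i 1)) = 0 := by
      rw [sub_eq_zero]
      exact LinearMap.congr_fun h _
    rw [h2, map_zero]
  have h2 := Derivation.congr_fun h1 p
  rw [Derivation.commutator_apply, Derivation.zero_apply, sub_eq_zero] at h2
  exact h2

/-- products of elements killed by powers of a derivation -/
theorem nil_mul (D : Derivation ℂ (MvPolynomial (Fin m) ℂ) (MvPolynomial (Fin m) ℂ)) :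
    ∀ (k a b : ℕ), a + b = k → ∀ p q : MvPolynomial (Fin m) ℂ, (⇑D)^[a] p = 0 → (⇑D)^[b] q = 0 →
      (⇑D)^[k] (p * q) = 0 := by
  have h0 : ∀ k, (⇑D)^[k] 0 = 0 := fun k => Function.iterate_fixed (map_zero D) k
  have hadd : ∀ k (p q : MvPolynomial (Fin m) ℂ),
      (⇑D)^[k] (p + q) = (⇑D)^[k] p + (⇑D)^[k] q := by
    intro k
    induction k with
    | zero => exact fun _ _ => rfl
    | succ k ih =>
      intro p q
      rw [Function.iterate_succ_apply, Function.iterate_succ_apply, Function.iterate_succ_apply,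
        map_add, ih]
  intro k
  induction k with
  | zero =>
    intro a b hab p q hp hq
    have ha : a = 0 := by omega
    subst ha
    rw [Function.iterate_zero_apply] at hp ⊢
    rw [hp, zero_mul]
  | succ k ih =>
    intro a b hab p q hp hq
    cases a with
    | zero =>
      rw [Function.iterate_zero_apply] at hp
      rw [hp, zero_mul, h0]
    | succ a =>
      cases b with
      | zero =>
        rw [Function.iterate_zero_apply] at hq
        rw [hq, mul_zero, h0]
      | succ b =>
        rw [Function.iterate_succ_apply, Derivation.leibniz, smul_eq_mul, smul_eq_mul, hadd]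
        rw [Function.iterate_succ_apply] at hp hq
        rw [ih (a + 1) b (by omega) p (D q) (by rw [Function.iterate_succ_apply]; exact hp) hq,
          mul_comm q, ih a (b + 1) (by omega) (D p) q hp
            (by rw [Function.iterate_succ_apply]; exact hq), add_zero]

theorem iter_mono {D : Derivation ℂ (MvPolynomial (Fin m) ℂ) (MvPolynomial (Fin m) ℂ)}
    {a b : ℕ} (h : a ≤ b) {p : MvPolynomial (Fin m) ℂ} (hp : (⇑D)^[a] p = 0) :
    (⇑D)^[b] p = 0 := by
  obtain ⟨c, rfl⟩ := Nat.exists_eq_add_of_le h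
  rw [add_comm, Function.iterate_add_apply, hp]
  exact Function.iterate_fixed (map_zero D) c

/-- the derivation of a nilpotent map is locally nilpotent -/
theorem Dl_nil {T : Module.End ℂ (Fin m → ℂ)} (hT : IsNilpotent T)
    (p : MvPolynomial (Fin m) ℂ) : ∃ k, (⇑(Dl T))^[k] p = 0 := by
  obtain ⟨r, hr⟩ := hT
  have hl : ∀ k c, (⇑(Dl T))^[k] (lf c) = lf ((T ^ k) c) := by
    intro k
    induction k with
    | zero => exact fun _ => rfl
    | succ k ih =>
      intro c
      rw [Function.iterate_succ_apply, Dl_lf, ih, pow_succ]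
      rfl
  induction p using MvPolynomial.induction_on with
  | C a => exact ⟨1, by rw [Function.iterate_one, derivation_C]⟩
  | add p q hp hq =>
    obtain ⟨a, ha⟩ := hp
    obtain ⟨b, hb⟩ := hq
    refine ⟨max a b, ?_⟩
    have hadd : ∀ k (p q : MvPolynomial (Fin m) ℂ),
        (⇑(Dl T))^[k] (p + q) = (⇑(Dl T))^[k] p + (⇑(Dl T))^[k] q := by
      intro k
      induction k with
      | zero => exact fun _ _ => rfl
      | succ k ih =>
        intro p q
        rw [Function.iterate_succ_apply, Function.iterate_succ_apply, Function.iterate_succ_apply,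
          map_add, ih]
    rw [hadd, iter_mono (le_max_left _ _) ha, iter_mono (le_max_right _ _) hb, add_zero]
  | mul_X p i hp =>
    obtain ⟨a, ha⟩ := hp
    refine ⟨a + r, nil_mul (Dl T) _ a r rfl p (X i) ha ?_⟩
    rw [← lf_single, hl, hr, LinearMap.zero_apply, map_zero]

/-- the diagonal derivation -/
noncomputable def El (lam : Fin m → ℂ) :
    Derivation ℂ (MvPolynomial (Fin m) ℂ) (MvPolynomial (Fin m) ℂ) :=
  mkDerivation ℂ fun i => C (lam i) * X i

theorem El_monomial (lam : Fin m → ℂ) (α : Fin m →₀ ℕ) (c : ℂ) :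
    El lam (monomial α c) = C (∑ i, (α i : ℂ) * lam i) * monomial α c := by
  unfold El
  rw [mkDerivation_monomial, Finsupp.sum_fintype _ _ (fun i => by
    rw [Nat.cast_zero, map_zero, zero_smul]), Finset.smul_sum, map_sum, Finset.sum_mul]
  refine Finset.sum_congr rfl fun i _ => ?_
  by_cases hi : α i = 0
  · rw [hi, Nat.cast_zero, map_zero, zero_smul, smul_zero, zero_mul, map_zero, zero_mul]
  · have h1 : monomial (α - Finsupp.single i 1) (1 : ℂ) * X i = monomial α 1 := by
      rw [X, monomial_mul, mul_one]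
      have h2 : Finsupp.single i 1 ≤ α := by
        rw [Finsupp.single_le_iff]
        omega
      rw [tsub_add_cancel_of_le h2]
    have h2 : monomial α c = C c * monomial α 1 := by
      rw [C_mul_monomial, mul_one]
    have h3 : monomial (α - Finsupp.single i 1) ((α i : ℕ) : ℂ) =
        C ((α i : ℕ) : ℂ) * monomial (α - Finsupp.single i 1) 1 := by
      rw [C_mul_monomial, mul_one]
    rw [h3, smul_eq_mul, smul_eq_C_mul, h2, map_mul, ← h1]
    ring

theorem coeff_El (lam : Fin m → ℂ) (g : MvPolynomial (Fin m) ℂ) (α : Fin m →₀ ℕ) :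
    coeff α (El lam g) = (∑ i, (α i : ℂ) * lam i) * coeff α g := by
  induction g using MvPolynomial.induction_on' with
  | monomial β c =>
    rw [El_monomial, coeff_C_mul, coeff_monomial]
    split_ifs with h
    · rw [h]
    · rw [mul_zero, mul_zero]
  | add p q hp hq => rw [map_add, coeff_add, coeff_add, hp, hq, mul_add]

theorem coeff_El_iter (lam : Fin m → ℂ) (k : ℕ) (g : MvPolynomial (Fin m) ℂ) (α : Fin m →₀ ℕ) :
    coeff α ((⇑(El lam))^[k] g) = (∑ i, (α i : ℂ) * lam i) ^ k * coeff α g := by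
  induction k with
  | zero => rw [pow_zero, one_mul, Function.iterate_zero_apply]
  | succ k ih => rw [Function.iterate_succ_apply', coeff_El, ih, pow_succ]; ring

/-- the substitution -/
noncomputable def sb (Y : Matrix (Fin m) (Fin m) ℂ) :
    MvPolynomial (Fin m) ℂ →ₐ[ℂ] MvPolynomial (Fin m) ℂ := aeval fun i => lf (Y i)

theorem sb_X (Y : Matrix (Fin m) (Fin m) ℂ) (i : Fin m) : sb Y (X i) = lf (Y i) := aeval_X _ _

theorem sb_lf (Y : Matrix (Fin m) (Fin m) ℂ) (c : Fin m → ℂ) :
    sb Y (lf c) = lf (Matrix.vecMul c Y) := by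
  rw [lf_apply, map_sum]
  have h1 : ∀ i, sb Y (C (c i) * X i) = c i • lf (Y i) := by
    intro i
    rw [map_mul, sb_X, algHom_C, algebraMap_eq, C_mul']
  rw [Finset.sum_congr rfl fun i _ => h1 i]
  simp only [← map_smul]
  rw [← map_sum]
  congr 1
  funext j
  rw [Finset.sum_apply]
  rfl

theorem sb_sb (Y Z : Matrix (Fin m) (Fin m) ℂ) (g : MvPolynomial (Fin m) ℂ) :
    sb Y (sb Z g) = sb (Z * Y) g := by
  have h1 : (sb Y).comp (sb Z) = sb (Z * Y) := by
    apply algHom_ext
    intro i
    rw [AlgHom.comp_apply, sb_X, sb_lf, sb_X]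
    rfl
  exact AlgHom.congr_fun h1 g

theorem sb_one (g : MvPolynomial (Fin m) ℂ) : sb (1 : Matrix (Fin m) (Fin m) ℂ) g = g := by
  have h1 : sb (1 : Matrix (Fin m) (Fin m) ℂ) = AlgHom.id ℂ _ := by
    apply algHom_ext
    intro i
    rw [sb_X, AlgHom.id_apply]
    have h2 : (1 : Matrix (Fin m) (Fin m) ℂ) i = Pi.single i 1 := by
      funext j
      rw [Matrix.one_apply, Pi.single_apply]
      simp only [eq_comm]
    rw [h2, lf_single]
  exact AlgHom.congr_fun h1 g

section diag

variable {S : Module.End ℂ (Fin m → ℂ)} {Y : Matrix (Fin m) (Fin m) ℂ} {lam : Fin m → ℂ}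
  (h : ∀ i, S (Y i) = lam i • Y i)
include h

theorem Dl_sb (p : MvPolynomial (Fin m) ℂ) : Dl S (sb Y p) = sb Y (El lam p) := by
  induction p using MvPolynomial.induction_on with
  | C a =>
    rw [algHom_C, algebraMap_eq, derivation_C, derivation_C, map_zero]
  | add p q hp hq => rw [map_add, map_add, hp, hq, map_add, map_add]
  | mul_X p i hp =>
    rw [map_mul, Derivation.leibniz, hp, Derivation.leibniz, map_add, sb_X, Dl_lf]
    have h1 : El lam (X i) = C (lam i) * X i := mkDerivation_X _ _ _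
    rw [h1, h i, map_smul, smul_eq_mul, smul_eq_mul, smul_eq_mul, smul_eq_mul, map_mul, map_mul,
      map_mul, sb_X, algHom_C, algebraMap_eq, smul_eq_C_mul]

theorem Dl_sb_iter (k : ℕ) (p : MvPolynomial (Fin m) ℂ) :
    (⇑(Dl S))^[k] (sb Y p) = sb Y ((⇑(El lam))^[k] p) := by
  induction k generalizing p with
  | zero => rfl
  | succ k ih => rw [Function.iterate_succ_apply, Dl_sb h, ih, ← Function.iterate_succ_apply]

end diag

/-- the powers of the semisimple part -/
theorem Dl_alt {N S : Module.End ℂ (Fin m → ℂ)} (hcom : N * S = S * N)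
    (f : MvPolynomial (Fin m) ℂ) (hf : Dl (N + S) f = 0) (j : ℕ) :
    (⇑(Dl N))^[j] f = (-1 : ℂ) ^ j • (⇑(Dl S))^[j] f := by
  induction j with
  | zero => rw [pow_zero, one_smul, Function.iterate_zero_apply, Function.iterate_zero_apply]
  | succ j ih =>
    rw [Function.iterate_succ_apply', ih, Derivation.map_smul]
    have h1 : ∀ j, Dl N ((⇑(Dl S))^[j] f) = (⇑(Dl S))^[j] (Dl N f) := by
      intro j
      induction j with
      | zero => rfl
      | succ j ih2 =>
        rw [Function.iterate_succ_apply', Dl_comm hcom, ih2, Function.iterate_succ_apply']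
    have h2 : Dl N f = - Dl S f := by
      rw [Dl_add, Derivation.add_apply] at hf
      exact eq_neg_of_add_eq_zero_left hf
    have h3 : ∀ j p, (⇑(Dl S))^[j] (- p) = - (⇑(Dl S))^[j] p := by
      intro j
      induction j with
      | zero => exact fun _ => rfl
      | succ j ih3 =>
        intro p
        rw [Function.iterate_succ_apply, map_neg, ih3, ← Function.iterate_succ_apply]
    rw [h1, h2, h3, ← Function.iterate_succ_apply, pow_succ, mul_smul, smul_neg, neg_smul,
      one_smul, smul_neg]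

/-- **Eigenvectors.** The semisimple part of a linear vector field which kills `f` also kills
`f`. -/
theorem exists_coords (T : Module.End ℂ (Fin m → ℂ)) (f : MvPolynomial (Fin m) ℂ)
    (hf : Dl T f = 0) : ∃ (Y Z : Matrix (Fin m) (Fin m) ℂ) (lam : Fin m → ℂ), Y * Z = 1 ∧
      Z * Y = 1 ∧ ∑ i, lam i = LinearMap.trace ℂ _ T ∧
      ∀ α ∈ (sb Z f).support, ∑ i, (α i : ℂ) * lam i = 0 := by
  classical
  obtain ⟨N, hN, S, hS, hNn, hSs, hTN⟩ := T.exists_isNilpotent_isSemisimple
  have hcom : N * S = S * N := by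
    have h1 : Commute T N := Algebra.commute_of_mem_adjoin_self hN
    exact (Algebra.commute_of_mem_adjoin_singleton_of_commute hS h1.symm).eq
  -- a basis of eigenvectors
  have hint := DirectSum.isInternal_submodule_of_iSupIndep_of_iSup_eq_top
    S.eigenspaces_iSupIndep hSs.iSup_eigenspace_eq_top
  set B := hint.collectedBasis fun μ => Module.Free.chooseBasis ℂ (S.eigenspace μ) with hB
  have : Finite (Σ μ : ℂ, Module.Free.ChooseBasisIndex ℂ (S.eigenspace μ)) :=
    Module.Finite.finite_basis B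
  have := Fintype.ofFinite (Σ μ : ℂ, Module.Free.ChooseBasisIndex ℂ (S.eigenspace μ))
  have hcard : Fintype.card (Σ μ : ℂ, Module.Free.ChooseBasisIndex ℂ (S.eigenspace μ)) = m := by
    rw [← Module.finrank_eq_card_basis B, Module.finrank_fin_fun]
  set e := Fintype.equivFinOfCardEq hcard with he
  set b := B.reindex e with hb
  set lam : Fin m → ℂ := fun j => (e.symm j).1 with hlam
  have hSb : ∀ j, S (b j) = lam j • b j := by
    intro j
    have h1 : b j ∈ S.eigenspace (lam j) := by
      rw [hb, Module.Basis.reindex_apply]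
      exact hint.collectedBasis_mem _ _
    exact Module.End.mem_eigenspace_iff.1 h1
  set Y : Matrix (Fin m) (Fin m) ℂ := fun j => b j with hY
  obtain ⟨Z, hYZ, hZY⟩ : ∃ Z : Matrix (Fin m) (Fin m) ℂ, Y * Z = 1 ∧ Z * Y = 1 := by
    have h1 : LinearIndependent ℂ Y.row := b.linearIndependent
    have h2 : IsUnit Y := Matrix.linearIndependent_rows_iff_isUnit.1 h1
    obtain ⟨Z, h3, h4⟩ := isUnit_iff_exists.1 h2
    exact ⟨Z, h3, h4⟩
  refine ⟨Y, Z, lam, hYZ, hZY, ?_, ?_⟩
  · have h1 : LinearMap.trace ℂ _ T = LinearMap.trace ℂ _ S := by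
      rw [hTN, map_add]
      have := (LinearMap.isNilpotent_trace_of_isNilpotent hNn).eq_zero
      rw [this, zero_add]
    rw [h1, LinearMap.trace_eq_matrix_trace ℂ b, Matrix.trace]
    refine Finset.sum_congr rfl fun i _ => ?_
    rw [Matrix.diag_apply, LinearMap.toMatrix_apply, hSb, map_smul, Finsupp.smul_apply,
      Module.Basis.repr_self, Finsupp.single_eq_same, smul_eq_mul, mul_one]
  · intro α hα
    set g := sb Z f with hg
    have hfg : f = sb Y g := by
      rw [hg, sb_sb, hZY, sb_one]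
    have hSY : ∀ i, S (Y i) = lam i • Y i := hSb
    obtain ⟨k, hk⟩ := Dl_nil hNn f
    have h1 : (⇑(Dl S))^[k] f = 0 := by
      have h2 := Dl_alt hcom f (by rw [← hTN]; exact hf) k
      rw [hk] at h2
      exact (smul_eq_zero.1 h2.symm).resolve_left (pow_ne_zero _ (by norm_num))
    rw [hfg, Dl_sb_iter hSY] at h1
    have h2 : (⇑(El lam))^[k] g = 0 := by
      have h3 := congrArg (sb Z) h1
      rw [sb_sb, hYZ, sb_one, map_zero] at h3
      exact h3
    have h3 := coeff_El_iter lam k g α
    rw [h2, coeff_zero] at h3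
    have h4 := (mul_eq_zero.1 h3.symm).resolve_right (mem_support_iff.1 hα)
    exact eq_zero_of_pow_eq_zero h4

/-- **Integer weights.** -/
theorem exists_weights (lam : Fin m → ℂ) (hlam : ∑ i, lam i ≠ 0)
    (g : MvPolynomial (Fin m) ℂ) (d : ℕ) (hd : 0 < d) (hg : g.IsHomogeneous d)
    (h : ∀ α ∈ g.support, ∑ i, (α i : ℂ) * lam i = 0) :
    ∃ (w : Fin m → ℤ) (c₀ : ℕ), ∑ i, w i ≠ 0 ∧ 0 < c₀ ∧ (∀ i, 0 < w i + c₀) ∧
      ∀ c ≥ c₀, IsWeightedHomogeneous (fun i => (w i + c).toNat) g (c * d) := by
  classical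
  obtain ⟨φ, hφ⟩ : ∃ φ : Module.Dual ℚ ℂ, φ (∑ i, lam i) ≠ 0 := by
    by_contra hc
    push Not at hc
    exact hlam ((Module.forall_dual_apply_eq_zero_iff ℚ _).1 hc)
  rw [map_sum] at hφ
  set ρ : Fin m → ℚ := fun i => φ (lam i) with hρ
  have h1 : ∀ α ∈ g.support, ∑ i, (α i : ℚ) * ρ i = 0 := by
    intro α hα
    have h2 := congrArg φ (h α hα)
    rw [map_sum, map_zero] at h2
    rw [← h2]
    refine Finset.sum_congr rfl fun i _ => ?_
    have h3 : (α i : ℂ) * lam i = (α i : ℚ) • lam i := by
      rw [Rat.smul_def]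
      norm_cast
    rw [h3, map_smul, smul_eq_mul]
  -- clear the denominators
  set q : ℕ := ∏ i, (ρ i).den with hq
  have hq0 : 0 < q := Finset.prod_pos fun i _ => (ρ i).den_pos
  have h2 : ∀ i, ∃ w : ℤ, (w : ℚ) = q * ρ i := by
    intro i
    obtain ⟨c, hc⟩ := Finset.dvd_prod_of_mem (fun i => (ρ i).den) (Finset.mem_univ i)
    refine ⟨c * (ρ i).num, ?_⟩
    rw [hq, hc]
    push_cast
    rw [← Rat.den_mul_eq_num]
    ring
  choose w hw using h2
  have h3 : ∀ α ∈ g.support, ∑ i, (α i : ℤ) * w i = 0 := by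
    intro α hα
    have h4 : ((∑ i, (α i : ℤ) * w i : ℤ) : ℚ) = 0 := by
      push_cast
      have h5 : ∑ i, (α i : ℚ) * (w i : ℚ) = q * ∑ i, (α i : ℚ) * ρ i := by
        rw [Finset.mul_sum]
        exact Finset.sum_congr rfl fun i _ => by rw [hw]; ring
      rw [h5, h1 α hα, mul_zero]
    exact_mod_cast h4
  have h4 : ∑ i, w i ≠ 0 := by
    intro h5
    apply hφ
    have h6 : ((∑ i, w i : ℤ) : ℚ) = q * ∑ i, ρ i := by
      push_cast
      rw [Finset.mul_sum]
      exact Finset.sum_congr rfl fun i _ => hw i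
    rw [h5, Int.cast_zero] at h6
    exact (mul_eq_zero.1 h6.symm).resolve_left (by exact_mod_cast hq0.ne')
  -- add a multiple of the degree
  set c : ℕ := 1 + ∑ i, (w i).natAbs with hc
  have h5 : ∀ i, 0 < w i + c := by
    intro i
    have h6 : (w i).natAbs ≤ ∑ i, (w i).natAbs :=
      Finset.single_le_sum (f := fun i => (w i).natAbs) (fun i _ => Nat.zero_le _)
        (Finset.mem_univ i)
    omega
  refine ⟨w, c, h4, by omega, h5, fun c' hc' => ?_⟩
  · intro α hα
    have h6 : ∑ i, α i = d := by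
      have := hg hα
      rw [Finsupp.weight_apply, Finsupp.sum_fintype _ _ (by simp)] at this
      simpa using this
    have h5' : ∀ i, 0 < w i + c' := fun i => by
      have := h5 i
      omega
    rw [Finsupp.weight_apply, Finsupp.sum_fintype _ _ (by simp)]
    have h7 : ((∑ i, α i • (w i + c').toNat : ℕ) : ℤ) = ((c' * d : ℕ) : ℤ) := by
      have h8 : ∀ i, ((α i • (w i + c').toNat : ℕ) : ℤ) = (α i : ℤ) * w i + α i * c' := by
        intro i
        rw [smul_eq_mul, Nat.cast_mul, Int.toNat_of_nonneg (h5' i).le]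
        ring
      rw [Nat.cast_sum, Finset.sum_congr rfl fun i _ => h8 i, Finset.sum_add_distrib,
        h3 α (mem_support_iff.2 hα), zero_add, ← Finset.sum_mul, ← Nat.cast_sum, h6]
      push_cast
      ring
    exact_mod_cast h7

end Pool.Agent.H940.G.LA
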