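import Pool.Agent.H940.G.Homog

set_option autoImplicit false
set_option linter.unusedSectionVars false
set_option linter.unusedVariables false

/-! # The arcs near the singular lines of a form -/

namespace Pool.Agent.H940.G

open MvPolynomial Pool.Agent.W428.MOT Pool.Agent.TH192.MT Pool.Agent.TH192.DT Pool.Agent.Q49.CO
open Pool.Agent.Q57.QM Pool.Agent.Y229 Pool.Agent.Q57.MC Pool.Agent.Q57.MD
open Pool.Agent.H940.LT (eval_homog)
open Pool.Agent.H940.Z

variable {n : ℕ}

theorem aeval_homog {R : Type} [CommRing R] [Algebra ℂ R] {σ : Type} [Fintype σ]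
    (f : MvPolynomial σ ℂ) (d : ℕ)
    (hf : f.IsHomogeneous d) (y : σ → R) (v : R) :
    aeval (fun j => v * y j) f = v ^ d * aeval y f := by
  rw [f.as_sum, map_sum, map_sum, Finset.mul_sum]
  refine Finset.sum_congr rfl fun α hα => ?_
  rw [aeval_monomial, aeval_monomial]
  have h1 := hf (mem_support_iff.1 hα)
  rw [Finsupp.weight_apply, Finsupp.sum_fintype _ _ (by simp)] at h1
  simp only [Pi.one_apply, smul_eq_mul, mul_one] at h1
  rw [Finsupp.prod_fintype _ _ (fun i => pow_zero _), Finsupp.prod_fintype _ _ (fun i => pow_zero _)]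
  have h2 : ∏ i, (v * y i) ^ α i = v ^ d * ∏ i, y i ^ α i := by
    rw [← h1, ← Finset.prod_pow_eq_pow_sum, ← Finset.prod_mul_distrib]
    exact Finset.prod_congr rfl fun i _ => mul_pow _ _ _
  rw [h2]
  ring

/-- the numerators of the coordinates of the chart -/
noncomputable def an (i : Fin (n + 1)) (q : Fin n → ℂ) (t : Fin n) :
    MvPolynomial (Fin (n + 1)) ℂ := X (i.succAbove t) - C (q t) * X i

theorem same_germ (f : MvPolynomial (Fin (n + 1)) ℂ) (d : ℕ) (hf : f.IsHomogeneous d)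
    (i : Fin (n + 1)) (q : Fin n → ℂ) :
    Same (fun _ : Fin 1 => f) (fun _ : Fin 1 => germAt i q f) (an i q) (X i) := by
  unfold Same
  rw [Set.range_const, Set.range_const]
  set ι := algebraMap (MvPolynomial (Fin (n + 1)) ℂ)
    (Localization.Away (X i : MvPolynomial (Fin (n + 1)) ℂ)) with hι
  set v : Localization.Away (X i : MvPolynomial (Fin (n + 1)) ℂ) :=
    IsLocalization.Away.invSelf (X i : MvPolynomial (Fin (n + 1)) ℂ) with hv
  have hXv : ι (X i) * v = 1 := IsLocalization.Away.mul_invSelf (X i)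
  have hC : ∀ c : ℂ, ι (C c) = algebraMap ℂ _ c := by
    intro c
    rw [hι, ← algebraMap_eq, ← IsScalarTower.algebraMap_apply]
  have h1 : frac (an i q) (X i) (germAt i q f) = v ^ d * ι f := by
    have h2 : (aeval (fun t => ι (an i q t) * v)).comp
        (aeval (i.insertNth 1 fun t => X t + C (q t) : Fin (n + 1) → MvPolynomial (Fin n) ℂ)) =
        aeval fun j => v * ι (X j) := by
      apply algHom_ext
      intro j
      rw [AlgHom.comp_apply, aeval_X, aeval_X]
      induction j using i.succAboveCases with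
      | x => rw [Fin.insertNth_apply_same, map_one, mul_comm, hXv]
      | p t =>
        rw [Fin.insertNth_apply_succAbove, map_add, aeval_X, algHom_C]
        unfold an
        rw [map_sub, map_mul, hC]
        linear_combination (-(algebraMap ℂ _ (q t))) * hXv
    have h3 : frac (an i q) (X i) (germAt i q f) = aeval (fun j => v * ι (X j)) f := by
      rw [← h2]
      rfl
    rw [h3, aeval_homog f d hf (fun j => ι (X j)) v]
    congr 1
    have h4 : (aeval fun j => ι (X j) : MvPolynomial (Fin (n + 1)) ℂ →ₐ[ℂ] _) =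
        IsScalarTower.toAlgHom ℂ _ _ := by
      apply algHom_ext
      intro j
      rw [aeval_X]
      rfl
    rw [h4]
    rfl
  rw [h1]
  have hu : IsUnit (v ^ d) := by
    refine IsUnit.pow d ?_
    exact IsUnit.of_mul_eq_one _ (by rw [mul_comm]; exact hXv)
  exact (Ideal.span_singleton_mul_left_unit hu _).symm

/-- the points of the line -/
def Wl (i : Fin (n + 1)) (q : Fin n → ℂ) : Set (Pt ℂ (Fin (n + 1))) :=
  {z | z i ≠ 0 ∧ ∀ t, z (i.succAbove t) - algebraMap ℂ (AlgebraicClosure ℂ) (q t) * z i = 0}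

theorem constr_Wl (i : Fin (n + 1)) (q : Fin n → ℂ) : Constr (Wl i q) :=
  Constr.and (Constr.eqz (IsPF.coord _)).not (Constr.all fun t =>
    Constr.eqz ((IsPF.coord _).sub ((IsPF.const _).mul (IsPF.coord _))))

theorem aeval_an {R : Type} [CommRing R] [Algebra ℂ R] (i : Fin (n + 1)) (q : Fin n → ℂ)
    (t : Fin n) (z : Fin (n + 1) → R) :
    aeval z (an i q t) = z (i.succAbove t) - algebraMap ℂ R (q t) * z i := by
  unfold an
  rw [map_sub, map_mul, aeval_X, aeval_X, algHom_C]

theorem pderiv_an (i : Fin (n + 1)) (q : Fin n → ℂ) (s t : Fin n) :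
    pderiv (i.succAbove s) (an i q t) = if s = t then 1 else 0 := by
  unfold an
  rw [map_sub, pderiv_C_mul, pderiv_X_of_ne (Fin.ne_succAbove i s), mul_zero, sub_zero]
  split_ifs with h
  · rw [h, pderiv_X_self]
  · rw [pderiv_X_of_ne]
    intro h2
    exact h (Fin.succAbove_right_injective h2).symm

theorem indep_an (i : Fin (n + 1)) (q : Fin n → ℂ) : Indep (an i q) (Wl i q) := by
  rintro z ⟨_, hz⟩
  refine ⟨fun t => ?_, fun l hl t => ?_⟩
  · rw [aeval_an]
    exact hz t
  · have h1 := hl (i.succAbove t)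
    rw [Finset.sum_eq_single t] at h1
    · rwa [pderiv_an, if_pos rfl, map_one, mul_one] at h1
    · intro s _ hs
      rw [pderiv_an, if_neg (Ne.symm hs), map_zero, mul_zero]
    · intro h
      exact absurd (Finset.mem_univ _) h

/-- the arcs which are near the line up to order `k` -/
def Tb (i : Fin (n + 1)) (q : Fin n → ℂ) (k : ℕ) (γ : Arc ℂ (Fin (n + 1))) : Prop :=
  PowerSeries.coeff 0 (γ i) ≠ 0 ∧ ∀ t, Vn k (aeval γ (an i q t))

theorem cyl_Tb (i : Fin (n + 1)) (q : Fin n → ℂ) (k : ℕ) : Cyl (Tb i q k) k :=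
  (Cyl.c0 i (Nat.zero_le k)).not.and (Cyl.all fun t => Cyl.vn _ (by omega))

theorem Tb_mono {i : Fin (n + 1)} {q : Fin n → ℂ} {k k' : ℕ} (h : k ≤ k')
    {γ : Arc ℂ (Fin (n + 1))} (hγ : Tb i q k' γ) : Tb i q k γ :=
  ⟨hγ.1, fun t => vn_mono (hγ.2 t) h⟩

theorem Tb_one (i : Fin (n + 1)) (q : Fin n → ℂ) (γ : Arc ℂ (Fin (n + 1))) :
    Tb i q 1 γ ↔ (fun j => PowerSeries.coeff 0 (γ j)) ∈ Wl i q := by
  unfold Tb Wl
  refine and_congr Iff.rfl (forall_congr' fun t => ?_)
  constructor
  · intro h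
    have h1 := h 0 one_pos
    rw [aeval_an, map_sub, PowerSeries.algebraMap_apply, PowerSeries.coeff_C_mul] at h1
    exact h1
  · intro h j hj
    have : j = 0 := by omega
    subst this
    rw [aeval_an, map_sub, PowerSeries.algebraMap_apply, PowerSeries.coeff_C_mul]
    exact h

section chart

variable {M : Meas ℂ (MK ℂ)} (hL : M.L = ((Lu ℂ : (MK ℂ)ˣ) : MK ℂ))
  (f : MvPolynomial (Fin (n + 1)) ℂ) (d : ℕ) (hf : f.IsHomogeneous d)
  (i : Fin (n + 1)) (q : Fin n → ℂ) (hpm : PM M true (fun _ : Fin 1 => germAt i q f))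
include hL hf hpm

/-- **The arcs with origin on the line.** -/
theorem line_pm : ∃ S : Finset (ℤ × ℤ), (∀ s ∈ S, s.1 < 0 ∧ 0 < s.2 ∧
      SF (fun _ : Fin 1 => f) 0 ((s.1 : ℂ) / s.2)) ∧
    VS M (((Lu ℂ)⁻¹ : (MK ℂ)ˣ) : MK ℂ) (Tb i q 1) f ∈ ratU (Lu ℂ) (S : Set (ℤ × ℤ)) := by
  classical
  have hv : M.L * (((Lu ℂ)⁻¹ : (MK ℂ)ˣ) : MK ℂ) = 1 := by rw [hL, Units.mul_inv]
  obtain ⟨hne, S, hS, hz⟩ := hpm
  refine ⟨S, fun s hs => ⟨(hS s hs).1, (hS s hs).2.1, ?_⟩, ?_⟩
  · set p : Fin (n + 1) → ℂ := i.insertNth 1 q with hp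
    have hpi : p i = 1 := by rw [hp, Fin.insertNth_apply_same]
    have hpt : ∀ t, p (i.succAbove t) = q t := by
      intro t
      rw [hp, Fin.insertNth_apply_succAbove]
    refine sf_cone_pts (T := Finset.univ) (fun _ : Fin 1 => f) d (fun _ => ?_)
      (fun _ : Fin 1 => germAt i q f) p
      (transfer_chart (fun _ : Fin 1 => f) (fun _ : Fin 1 => germAt i q f) (an i q)
        (fun t => i.succAbove t) (X i) p ?_ (same_germ f d hf i q) ?_ ?_) ?_ hne _
        ((sf_iff _ hne _).1 (hS s hs).2.2)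
    · unfold HT
      have h1 : (fun j : Fin (n + 1) => if j ∈ (Finset.univ : Finset (Fin (n + 1))) then 1 else 0) =
          (1 : Fin (n + 1) → ℕ) := by
        funext j
        rw [if_pos (Finset.mem_univ j)]
        rfl
      rw [h1]
      exact hf
    · rw [eval_X, hpi]
      exact one_ne_zero
    · intro t
      have h1 := aeval_an i q t p
      rw [hpt, hpi] at h1
      change aeval p (an i q t) = 0
      rw [h1]
      change q t - q t * 1 = 0
      ring
    · have h1 : (Matrix.of fun u t => eval p (pderiv (i.succAbove u) (an i q t))) =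
          (1 : Matrix (Fin n) (Fin n) ℂ) := by
        ext1 u t
        rw [Matrix.of_apply, pderiv_an, Matrix.one_apply]
        split_ifs
        · rw [map_one]
        · rw [map_zero]
      rw [h1, Matrix.det_one]
      exact one_ne_zero
    · intro j hj
      exact absurd (Finset.mem_univ j) hj
  · have h1 := SW_chart M (b := true) hv (fun _ : Fin 1 => f) (an i q)
      (fun _ : Fin 1 => germAt i q f) (X i) (same_germ f d hf i q) (constr_Wl i q)
      (indep_an i q) (fun z hz => by rw [aeval_X]; exact hz.1)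
    have h2 : VS M (((Lu ℂ)⁻¹ : (MK ℂ)ˣ) : MK ℂ) (Tb i q 1) f =
        SW M true (((Lu ℂ)⁻¹ : (MK ℂ)ˣ) : MK ℂ) (fun _ : Fin 1 => f) (Wl i q) := by
      ext N
      rw [SW_true, coeff_VW, VS_origin M hv f (constr_Wl i q)]
      congr 2
      exact funext fun γ => propext (Tb_one i q γ)
    rw [h2, h1]
    exact Subalgebra.mul_mem _ (rat_C _ _) hz

end chart

/-- the order of the gradient near a line -/
theorem line_bdd (f : MvPolynomial (Fin (n + 1)) ℂ) (i : Fin (n + 1)) (q : Fin n → ℂ) (L : ℕ)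
    (U : MvPolynomial (Fin (n + 1)) ℂ)
    (hU : ∀ x : Fin (n + 1) → ℂ, x i ≠ 0 → (∀ t, x (i.succAbove t) = q t * x i) → eval x U ≠ 0)
    (h : ∀ t, U * an i q t ^ L ∈ Ideal.span (Set.range fun j => pderiv j f)) (k : ℕ)
    (γ : Arc ℂ (Fin (n + 1))) (h1 : Tb i q 1 γ) (h2 : ¬ Tb i q k γ) :
    ∃ s, ¬ Vn ((L + 1) * k) (aeval γ (pderiv s f)) := by
  by_contra hc
  push Not at hc
  apply h2
  refine ⟨h1.1, fun t => ?_⟩
  refine vn_of_pow (M := L + 1) ?_ (Nat.succ_pos L)
  have h3 := vn_mem hc (Ideal.mul_mem_left _ (an i q t) (h t))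
  have h4 : an i q t * (U * an i q t ^ L) = U * an i q t ^ (L + 1) := by ring
  rw [h4, map_mul, map_pow, vn_unit] at h3
  · exact h3
  · rw [coeff_zero_aevalK]
    obtain ⟨p, hp⟩ := exists_pt (fun j => PowerSeries.coeff 0 (γ j))
    rw [hp]
    rw [Ne, aeval_pt_zero]
    have h5 := (Tb_one i q γ).1 h1
    rw [hp] at h5
    obtain ⟨h6, h7⟩ := h5
    refine hU p ?_ fun t => ?_
    · intro h8
      apply h6
      change algebraMap ℂ (AlgebraicClosure ℂ) (p i) = 0
      rw [h8, map_zero]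
    · have h8 := h7 t
      rw [← map_mul, ← map_sub, map_eq_zero_iff _ (algebraMap ℂ (AlgebraicClosure ℂ)).injective]
        at h8
      linear_combination h8

end Pool.Agent.H940.G
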