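import Pool.Agent.H940.G.Main

set_option autoImplicit false
set_option linter.unusedSectionVars false
set_option linter.unusedVariables false

/-! # The topological zeta functions -/

namespace Pool.Agent.H940.G

open MvPolynomial Pool.Agent.W428.MOT Pool.Agent.TH192.MT Pool.Agent.TH192.DT Pool.Agent.Q49.CO
open Pool.Agent.Q57.QM Pool.Agent.Y229 Pool.Agent.Q57.MC Pool.Agent.Q57.MD
open Pool.Agent.TH192.MU (zetaId IsTopZeta)
open Pool.Agent.H628R4.TP (IsBFunction IsLocalBFunction)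
open Pool.Agent.H940.Z

variable {n : ℕ}

section

variable {f : MvPolynomial (Fin (n + 1)) ℂ} {d : ℕ} (hd : 2 ≤ d) (hf : f.IsHomogeneous d)
  (hf0 : f ≠ 0) (H : LH f)
include hd hf hf0 H

/-- the motivic zeta function of `f`, with denominators which avoid a non-root -/
theorem mot_global (B : Finset ℂ) (hB : ∀ α ∈ B, ¬ SF (fun _ : Fin 1 => f) 0 α) :
    ∃ S : Finset (ℤ × ℤ), (∀ q ∈ S, q.1 < 0 ∧ 0 < q.2 ∧ ((q.1 : ℂ) / q.2) ∉ B) ∧
      zetaId (fun _ : Fin 1 => f) ∈ ratRing ℂ (S : Set (ℤ × ℤ)) := by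
  obtain ⟨M, hL, hχ⟩ := exists_meas ℂ
  have hv : M.L * (((Lu ℂ)⁻¹ : (MK ℂ)ˣ) : MK ℂ) = 1 := by rw [hL, Units.mul_inv]
  obtain ⟨S, hS, hz⟩ := avoid hd hf hf0 H hL B hB
  refine ⟨S, hS, (zetaId_iff hL hχ _ _).2 (ZW_of_VW M (Lu ℂ) (fun q hq => (hS q hq).2.1) ?_)⟩
  rw [vw_univ hv]
  exact hz

/-- the local motivic zeta function of `f` -/
theorem mot_local (B : Finset ℂ) (hB : ∀ α ∈ B, ¬ SF (fun _ : Fin 1 => f) 0 α) :
    ∃ S : Finset (ℤ × ℤ), (∀ q ∈ S, q.1 < 0 ∧ 0 < q.2 ∧ ((q.1 : ℂ) / q.2) ∉ B) ∧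
      zetaJ (fun _ : Fin 1 => f) ∈ ratRing ℂ (S : Set (ℤ × ℤ)) := by
  obtain ⟨M, hL, hχ⟩ := exists_meas ℂ
  have hv : M.L * (((Lu ℂ)⁻¹ : (MK ℂ)ˣ) : MK ℂ) = 1 := by rw [hL, Units.mul_inv]
  obtain ⟨S, hS, hz⟩ := avoid hd hf hf0 H hL B hB
  refine ⟨S, hS, (zeta_iff hL hχ _ _).2 (ZW_of_VW M (Lu ℂ) (fun q hq => (hS q hq).2.1) ?_)⟩
  rw [vw_zero hv]
  exact or_of_univ M (Lu ℂ) hL _ f d (fun γ => aeval_homog f d hf γ _) hz

variable {R : Type} [CommRing R] [IsDomain R] (E : MK ℂ →+* R) (ε : R →+* ℂ)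
  (hε : ε (E ((Lu ℂ : (MK ℂ)ˣ) : MK ℂ)) = 1) (hE : E ((Lu ℂ : (MK ℂ)ˣ) : MK ℂ) ≠ 1)
include hε hE

/-- **The poles of the global topological zeta function.** -/
theorem global_top (Z : RatFunc ℂ) (hZ : IsTopZeta E ε (zetaM f Set.univ {c | c ≠ 0}) Z) (s₀ : ℂ)
    (hs : Z.denom.eval s₀ = 0) (b : Polynomial ℂ) (hb : IsBFunction f b) : b.eval s₀ = 0 := by
  by_contra hne
  rw [← zetaId_one] at hZ
  obtain ⟨S, hS, hz⟩ := mot_global hd hf hf0 H {s₀} (fun α hα h => by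
    rw [Finset.mem_singleton] at hα
    subst hα
    exact hne (sf_forced h b (locEq1_of_eq f b hb)))
  obtain ⟨q, hq, h1⟩ := top_poles E ε hε hE _ (fun q hq => ⟨(hS q hq).1, (hS q hq).2.1⟩) _ hz Z
    hZ s₀ hs
  exact (hS q hq).2.2 (by rw [← h1]; exact Finset.mem_singleton_self _)

/-- **The poles of the local topological zeta function.** -/
theorem local_top (Z : RatFunc ℂ) (hZ : IsTopZeta E ε (zetaO f) Z) (s₀ : ℂ)
    (hs : Z.denom.eval s₀ = 0) (b : Polynomial ℂ) (hb : IsLocalBFunction f b) :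
    b.eval s₀ = 0 := by
  by_contra hne
  rw [← zetaJ_one] at hZ
  obtain ⟨S, hS, hz⟩ := mot_local hd hf hf0 H {s₀} (fun α hα h => by
    rw [Finset.mem_singleton] at hα
    subst hα
    exact hne (h.localBI b (localBI_one f b hb)))
  obtain ⟨q, hq, h1⟩ := top_poles E ε hε hE _ (fun q hq => ⟨(hS q hq).1, (hS q hq).2.1⟩) _ hz Z
    hZ s₀ hs
  exact (hS q hq).2.2 (by rw [← h1]; exact Finset.mem_singleton_self _)

end

end Pool.Agent.H940.G
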