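import Pool.Agent.H940.G.Cover

set_option autoImplicit false
set_option linter.unusedSectionVars false
set_option linter.unusedVariables false

/-! # The volumes of the arcs outside of the origin -/

namespace Pool.Agent.H940.G

open MvPolynomial Pool.Agent.W428.MOT Pool.Agent.TH192.MT Pool.Agent.TH192.DT Pool.Agent.Q49.CO
open Pool.Agent.Q57.QM Pool.Agent.Y229 Pool.Agent.Q57.MC Pool.Agent.Q57.MD
open Pool.Agent.H940.LT (eval_homog euler_hom LTy hom_lty)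
open Pool.Agent.H940.Z

variable {n : ℕ}

/-- the origin of an arc is a complex point -/
theorem origin_pt (γ : Arc ℂ (Fin (n + 1))) : ∃ p : Fin (n + 1) → ℂ,
    ∀ j, PowerSeries.coeff 0 (γ j) = algebraMap ℂ (AlgebraicClosure ℂ) (p j) := by
  obtain ⟨p, hp⟩ := exists_pt (fun j => PowerSeries.coeff 0 (γ j))
  exact ⟨p, fun j => congrFun hp j⟩

theorem tb_on {s : Fin (n + 1) × (Fin n → ℂ)} {γ : Arc ℂ (Fin (n + 1))}
    {p : Fin (n + 1) → ℂ} (hp : ∀ j, PowerSeries.coeff 0 (γ j) = algebraMap ℂ (AlgebraicClosure ℂ) (p j)) :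
    Tb s.1 s.2 1 γ ↔ On s p := by
  rw [Tb_one]
  unfold Wl On
  have hinj := (algebraMap ℂ (AlgebraicClosure ℂ)).injective
  refine and_congr ?_ (forall_congr' fun t => ?_)
  · simp only
    rw [hp, Ne, map_eq_zero_iff _ hinj]
  · simp only
    rw [hp, hp, ← map_mul, ← map_sub, map_eq_zero_iff _ hinj, sub_eq_zero]

/-- all or nothing near the lines -/
def AN (P : Arc ℂ (Fin (n + 1)) → Prop) (s : Fin (n + 1) × (Fin n → ℂ)) (k : ℕ) : Prop :=
  (∀ γ, Tb s.1 s.2 k γ → P γ) ∨ ∀ γ, Tb s.1 s.2 k γ → ¬ P γ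

section

variable {f : MvPolynomial (Fin (n + 1)) ℂ} {d : ℕ} (hd : 2 ≤ d) (hf : f.IsHomogeneous d)
  (hf0 : f ≠ 0) (H : LH f) {M : Meas ℂ (MK ℂ)} (hL : M.L = ((Lu ℂ : (MK ℂ)ˣ) : MK ℂ))
include hd hf hf0 H hL

/-- **The pairs of the singular lines.** -/
theorem exists_pairs : ∃ D : Finset (ℤ × ℤ), (∀ q ∈ D, q.1 < 0 ∧ 0 < q.2 ∧
      SF (fun _ : Fin 1 => f) 0 ((q.1 : ℂ) / q.2)) ∧ (-1, 1) ∈ D ∧
    ∀ s : Fin (n + 1) × (Fin n → ℂ), Cn s → Sg f (pt s) →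
      VS M (((Lu ℂ)⁻¹ : (MK ℂ)ˣ) : MK ℂ) (Tb s.1 s.2 1) f ∈ ratU (Lu ℂ) (D : Set (ℤ × ℤ)) := by
  classical
  choose! S hS1 hS2 using fun (s : Fin (n + 1) × (Fin n → ℂ)) (h : Sg f (pt s)) =>
    line_pm hL f d hf s.1 s.2 (germ_pm hd hf hf0 H hL h)
  set T := (finite_lines hd hf hf0 H).toFinset with hT
  refine ⟨insert (-1, 1) (T.biUnion S), ?_, Finset.mem_insert_self _ _, ?_⟩
  · intro q hq
    rcases Finset.mem_insert.1 hq with rfl | hq
    · refine ⟨by norm_num, by norm_num, ?_⟩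
      have h1 := sf_neg_one f hf0 0 (by
        have h2 := eval_homog f d hf 0 0
        rw [zero_pow (by omega), zero_mul, zero_smul] at h2
        exact h2)
      simpa using h1
    · obtain ⟨s, hs, hqs⟩ := Finset.mem_biUnion.1 hq
      exact hS1 s ((Set.Finite.mem_toFinset _).1 hs).2 q hqs
  · intro s hs1 hs2
    refine rat_mono (Lu ℂ) ?_ (hS2 s hs2)
    intro q hq
    refine Finset.mem_coe.2 (Finset.mem_insert_of_mem (Finset.mem_biUnion.2 ⟨s, ?_, hq⟩))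
    exact (Set.Finite.mem_toFinset _).2 ⟨hs1, hs2⟩

/-- **Volumes outside of the origin.** -/
theorem out_mem (D : Set (ℤ × ℤ)) (hD1 : (-1, 1) ∈ D)
    (hD : ∀ s : Fin (n + 1) × (Fin n → ℂ), Cn s → Sg f (pt s) →
      VS M (((Lu ℂ)⁻¹ : (MK ℂ)ˣ) : MK ℂ) (Tb s.1 s.2 1) f ∈ ratU (Lu ℂ) D)
    {P : Arc ℂ (Fin (n + 1)) → Prop} {q : ℕ} (hP : Cyl P q) (hPo : ∀ γ, P γ → ¬ Or γ)
    (k : ℕ) (hk : 1 ≤ k) (hAN : ∀ s, AN P s k) :
    VS M (((Lu ℂ)⁻¹ : (MK ℂ)ˣ) : MK ℂ) P f ∈ ratU (Lu ℂ) D := by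
  classical
  have hv : M.L * (((Lu ℂ)⁻¹ : (MK ℂ)ˣ) : MK ℂ) = 1 := by rw [hL, Units.mul_inv]
  set T := (finite_lines hd hf hf0 H).toFinset with hT
  have hTm : ∀ s, s ∈ T ↔ Cn s ∧ Sg f (pt s) := fun s => Set.Finite.mem_toFinset _
  have hcT : Cyl (fun γ : Arc ℂ (Fin (n + 1)) => ∃ s ∈ T, Tb s.1 s.2 1 γ) 1 := by
    have h1 : (fun γ : Arc ℂ (Fin (n + 1)) => ∃ s ∈ T, Tb s.1 s.2 1 γ) =
        fun γ => ∃ s : T, Tb s.1.1 s.1.2 1 γ :=
      funext fun γ => propext ⟨fun ⟨s, hs, h⟩ => ⟨⟨s, hs⟩, h⟩, fun ⟨s, h⟩ => ⟨s.1, s.2, h⟩⟩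
    rw [h1]
    exact Cyl.ex fun s => cyl_Tb _ _ 1
  rw [VS_split M hv hP hcT f]
  refine Subalgebra.add_mem _ ?_ ?_
  · have h1 : (fun γ => P γ ∧ ∃ s ∈ T, Tb s.1 s.2 1 γ) =
        fun γ => ∃ s ∈ T, P γ ∧ Tb s.1 s.2 1 γ :=
      funext fun γ => propext ⟨fun ⟨h, s, hs, h2⟩ => ⟨s, hs, h, h2⟩,
        fun ⟨s, hs, h, h2⟩ => ⟨h, s, hs, h2⟩⟩
    rw [h1, VS_sum M hv T (q := max q 1) (fun s _ => (hP.mono (le_max_left _ _)).and
      ((cyl_Tb _ _ 1).mono (le_max_right _ _))) (by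
        rintro s hs s' hs' hne γ ⟨_, h2⟩ ⟨_, h3⟩
        obtain ⟨p, hp⟩ := origin_pt γ
        exact hne (((tb_on hp).1 h2).unique ((hTm s).1 hs).1 ((hTm s').1 hs').1
          ((tb_on hp).1 h3))) f]
    refine Subalgebra.sum_mem _ fun s hs => ?_
    obtain ⟨hs1, hs2⟩ := (hTm s).1 hs
    obtain ⟨L, U, hU, hmem⟩ := pow_line hd hf hf0 H hs2
    have hbd : ∀ γ, Tb s.1 s.2 1 γ → ¬ Tb s.1 s.2 k γ →
        ∃ j, ¬ Vn ((L + 1) * k) (aeval γ (pderiv j f)) := fun γ h2 h3 =>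
      line_bdd f s.1 s.2 L U (fun x hx hx' => hU x ⟨hx, hx'⟩) hmem k γ h2 h3
    have hcP : Cyl (fun γ => P γ ∧ Tb s.1 s.2 1 γ) (max q 1) :=
      (hP.mono (le_max_left _ _)).and ((cyl_Tb _ _ 1).mono (le_max_right _ _))
    rw [VS_split M hv hcP (cyl_Tb s.1 s.2 k) f]
    refine Subalgebra.add_mem _ ?_ ?_
    · rcases hAN s with h2 | h2
      · have h3 : (fun γ => (P γ ∧ Tb s.1 s.2 1 γ) ∧ Tb s.1 s.2 k γ) = Tb s.1 s.2 k :=
          funext fun γ => propext ⟨fun h => h.2, fun h => ⟨⟨h2 γ h, Tb_mono hk h⟩, h⟩⟩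
        have h4 := VS_split M hv (cyl_Tb s.1 s.2 1) (cyl_Tb s.1 s.2 k) f
        have h5 : (fun γ => Tb s.1 s.2 1 γ ∧ Tb s.1 s.2 k γ) = Tb s.1 s.2 k :=
          funext fun γ => propext ⟨fun h => h.2, fun h => ⟨Tb_mono hk h, h⟩⟩
        rw [h5] at h4
        rw [h3, ← sub_eq_iff_eq_add.2 h4]
        refine Subalgebra.sub_mem _ (hD s hs1 hs2) (VS_bdd M (Lu ℂ) hL hD1 f _
          (((cyl_Tb s.1 s.2 1).mono (le_max_left _ _)).and
            ((cyl_Tb s.1 s.2 k).mono (le_max_right _ _)).not) fun γ h => hbd γ h.1 h.2)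
      · rw [VS_false M hv (fun γ h => h2 γ h.2 h.1.1) f]
        exact zero_mem _
    · exact VS_bdd M (Lu ℂ) hL hD1 f _ ((hcP.mono (le_max_left _ _)).and
        ((cyl_Tb s.1 s.2 k).mono (le_max_right _ _)).not) fun γ h => hbd γ h.1.2 h.2
  · refine VS_bdd M (Lu ℂ) hL hD1 f 1 ((hP.mono (le_max_left _ _)).and
      (hcT.mono (le_max_right _ _)).not) fun γ ⟨h1, h2⟩ => ?_
    by_contra hc
    push Not at hc
    obtain ⟨p, hp⟩ := origin_pt γ
    have hp0 : p ≠ 0 := by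
      intro h0
      refine hPo γ h1 fun j => ?_
      rw [hp, h0, Pi.zero_apply, map_zero]
    have hsg : Sg f p := by
      intro j
      have h3 := hc j 0 one_pos
      rw [coeff_zero_aevalK] at h3
      have h4 : (fun j => PowerSeries.coeff 0 (γ j)) =
          fun j => algebraMap ℂ (AlgebraicClosure ℂ) (p j) := funext hp
      rw [h4] at h3
      exact (aeval_pt_zero _ _).1 h3
    obtain ⟨s, hs1, hs2⟩ := exists_On p hp0
    exact h2 ⟨s, (hTm s).2 ⟨hs1, hs2.sg hf hsg⟩, (tb_on hp).2 hs2⟩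

end

/-- an arc near the line -/
theorem tb_coord {s : Fin (n + 1) × (Fin n → ℂ)} {k : ℕ} {γ : Arc ℂ (Fin (n + 1))}
    (h : Tb s.1 s.2 k γ) (j : Fin (n + 1)) :
    Vn k (γ j - PowerSeries.C (algebraMap ℂ (AlgebraicClosure ℂ) (pt s j)) * γ s.1) := by
  induction j using s.1.succAboveCases with
  | x =>
    rw [pt_same, map_one, map_one, one_mul, sub_self]
    intro j _
    rw [map_zero]
  | p t =>
    rw [pt_above]
    have h1 := h.2 t
    rw [aeval_an, PowerSeries.algebraMap_apply] at h1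
    exact h1

/-- linear forms of an arc near the line -/
theorem tb_la {s : Fin (n + 1) × (Fin n → ℂ)} {k : ℕ} {γ : Arc ℂ (Fin (n + 1))}
    (h : Tb s.1 s.2 k γ) (A : Matrix (Fin (n + 1)) (Fin (n + 1)) ℂ) (i : Fin (n + 1)) :
    Vn k (la A γ i - PowerSeries.C (algebraMap ℂ (AlgebraicClosure ℂ) (A.mulVec (pt s) i)) *
      γ s.1) := by
  have h1 : la A γ i - PowerSeries.C (algebraMap ℂ (AlgebraicClosure ℂ) (A.mulVec (pt s) i)) *
      γ s.1 = ∑ j, PowerSeries.C (algebraMap ℂ (AlgebraicClosure ℂ) (A i j)) *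
        (γ j - PowerSeries.C (algebraMap ℂ (AlgebraicClosure ℂ) (pt s j)) * γ s.1) := by
    unfold la Matrix.mulVec dotProduct
    rw [map_sum, map_sum, Finset.sum_mul, ← Finset.sum_sub_distrib]
    refine Finset.sum_congr rfl fun j _ => ?_
    rw [map_mul, map_mul]
    ring
  rw [h1]
  exact vn_sum _ _ fun j _ => vn_mul _ (tb_coord h j)

theorem vn_sub_iff {F : Type} [Field F] {k : ℕ} {x y : PowerSeries F} (h : Vn k (x - y))
    {m : ℕ} (hm : m ≤ k) : Vn m x ↔ Vn m y := by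
  refine forall_congr' fun j => imp_congr_right fun hj => ?_
  have h1 := h j (by omega)
  rw [map_sub, sub_eq_zero] at h1
  rw [h1]

/-- near a line all arcs or no arcs are in the box -/
theorem an_box (A : Matrix (Fin (n + 1)) (Fin (n + 1)) ℂ) (m : Fin (n + 1) → ℕ)
    (s : Fin (n + 1) × (Fin n → ℂ)) :
    AN (fun γ => Box A m γ ∧ ¬ Or γ) s (∑ i, m i + 1) := by
  have hor : ∀ γ, Tb s.1 s.2 (∑ i, m i + 1) γ → ¬ Or γ := fun γ h h2 => h.1 (h2 s.1)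
  have hle : ∀ i, m i ≤ ∑ i, m i + 1 := fun i =>
    (Finset.single_le_sum (fun i _ => Nat.zero_le (m i)) (Finset.mem_univ i)).trans (Nat.le_succ _)
  have hb : ∀ γ, Tb s.1 s.2 (∑ i, m i + 1) γ →
      (Box A m γ ↔ ∀ i, m i = 0 ∨ A.mulVec (pt s) i = 0) := by
    intro γ h
    unfold Box
    refine forall_congr' fun i => ?_
    rw [vn_sub_iff (tb_la h A i) (hle i)]
    constructor
    · intro h1
      rw [or_iff_not_imp_left]
      intro hm
      have h2 := h1 0 (Nat.pos_of_ne_zero hm)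
      rw [PowerSeries.coeff_C_mul] at h2
      exact (map_eq_zero_iff _ (algebraMap ℂ (AlgebraicClosure ℂ)).injective).1
        ((mul_eq_zero.1 h2).resolve_right h.1)
    · rintro (h1 | h1)
      · rw [h1]
        exact fun j hj => absurd hj (Nat.not_lt_zero j)
      · rw [h1, map_zero, map_zero, zero_mul]
        intro j _
        rw [map_zero]
  by_cases h : ∀ i, m i = 0 ∨ A.mulVec (pt s) i = 0
  · exact Or.inl fun γ h1 => ⟨(hb γ h1).2 h, hor γ h1⟩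
  · exact Or.inr fun γ h1 h2 => h ((hb γ h1).1 h2.1)

end Pool.Agent.H940.G
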